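import Mathlib

set_option autoImplicit false

/-! # Maximum matchings as involutions -/

namespace Pool.Agent.J4.H77.CV

open Finset

/-- A maximum matching, as an involution: no edge between unmatched vertices and no augmenting path
of length three. -/
theorem exists_max_matching {V : Type} [Finite V] (T : SimpleGraph V) :
    ∃ m : V → V, (∀ v, m (m v) = v) ∧ (∀ v, m v ≠ v → T.Adj v (m v)) ∧
      (∀ u v, m u = u → m v = v → ¬ T.Adj u v) ∧
      ∀ u w w', m u ≠ u → m w = w → m w' = w' → T.Adj u w → T.Adj (m u) w' → w = w' := by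
  classical
  haveI := Fintype.ofFinite V
  let S : Finset (V → V) :=
    univ.filter (fun m => (∀ v, m (m v) = v) ∧ ∀ v, m v ≠ v → T.Adj v (m v))
  have hS : S.Nonempty := ⟨id, by simp [S]⟩
  obtain ⟨m, hm, hmax⟩ :=
    S.exists_max_image (fun m => (univ.filter (fun v => m v ≠ v)).card) hS
  obtain ⟨-, h1, h2⟩ := mem_filter.1 hm
  -- a better matching is impossible
  have nobetter : ∀ m' : V → V, (∀ v, m' (m' v) = v) → (∀ v, m' v ≠ v → T.Adj v (m' v)) →
      (∀ v, m v ≠ v → m' v ≠ v) → ∀ u, m u = u → m' u = u := by
    intro m' a1 a2 a3 u hu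
    by_contra hu'
    have hlt : (univ.filter (fun v => m v ≠ v)).card < (univ.filter (fun v => m' v ≠ v)).card := by
      apply card_lt_card
      refine ⟨fun x hx => ?_, fun hsub => ?_⟩
      · exact mem_filter.2 ⟨mem_univ _, a3 x (mem_filter.1 hx).2⟩
      · have : u ∈ univ.filter (fun v => m v ≠ v) := hsub (mem_filter.2 ⟨mem_univ _, hu'⟩)
        exact (mem_filter.1 this).2 hu
    exact absurd (hmax m' (mem_filter.2 ⟨mem_univ _, a1, a2⟩)) (not_le.2 hlt)
  refine ⟨m, h1, h2, fun u v hu hv huv => ?_, fun u w w' hu hw hw' huw huw' => ?_⟩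
  · have hne : u ≠ v := huv.ne
    let m' : V → V := fun x => if x = u then v else if x = v then u else m x
    have e1 : m' u = v := by simp [m']
    have e2 : m' v = u := by simp [m', hne.symm]
    have e3 : ∀ x, x ≠ u → x ≠ v → m' x = m x := by intro x hx hy; simp [m', hx, hy]
    have n1 : ∀ x, x ≠ u → m x ≠ u := by
      intro x hx h; exact hx (by rw [← h1 x, h, hu])
    have n2 : ∀ x, x ≠ v → m x ≠ v := by
      intro x hx h; exact hx (by rw [← h1 x, h, hv])
    have := nobetter m' ?_ ?_ ?_ u hu
    · rw [e1] at this
      exact hne this.symm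
    · intro x
      by_cases hxu : x = u
      · subst hxu; rw [e1, e2]
      · by_cases hxv : x = v
        · subst hxv; rw [e2, e1]
        · rw [e3 x hxu hxv, e3 _ (n1 x hxu) (n2 x hxv), h1]
    · intro x hx
      by_cases hxu : x = u
      · subst hxu; rw [e1]; exact huv
      · by_cases hxv : x = v
        · subst hxv; rw [e2]; exact huv.symm
        · rw [e3 x hxu hxv] at hx ⊢; exact h2 x hx
    · intro x hx
      have hxu : x ≠ u := by rintro rfl; exact hx hu
      have hxv : x ≠ v := by rintro rfl; exact hx hv
      rw [e3 x hxu hxv]; exact hx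
  · by_contra hww
    have hmu : m (m u) ≠ m u := by rw [h1]; exact fun h => hu h.symm
    have d1 : w ≠ u := by rintro rfl; exact hu hw
    have d2 : w' ≠ u := by rintro rfl; exact hu hw'
    have d3 : w ≠ m u := by rintro rfl; exact hmu hw
    have d4 : w' ≠ m u := by rintro rfl; exact hmu hw'
    let m' : V → V := fun x => if x = u then w else if x = w then u else
      if x = m u then w' else if x = w' then m u else m x
    have e1 : m' u = w := by simp [m']
    have e2 : m' w = u := by simp [m', d1]
    have e3 : m' (m u) = w' := by simp [m', hu, d3.symm]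
    have e4 : m' w' = m u := by simp [m', d2, d4, Ne.symm hww]
    have e5 : ∀ x, x ≠ u → x ≠ w → x ≠ m u → x ≠ w' → m' x = m x := by
      intro x a b c d; simp [m', a, b, c, d]
    have n1 : ∀ x, x ≠ m u → m x ≠ u := by
      intro x hx h; exact hx (by rw [← h1 x, h])
    have n2 : ∀ x, x ≠ w → m x ≠ w := by
      intro x hx h; exact hx (by rw [← h1 x, h, hw])
    have n3 : ∀ x, x ≠ u → m x ≠ m u := by
      intro x hx h; exact hx (by rw [← h1 x, h, h1])
    have n4 : ∀ x, x ≠ w' → m x ≠ w' := by
      intro x hx h; exact hx (by rw [← h1 x, h, hw'])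
    have := nobetter m' ?_ ?_ ?_ w hw
    · rw [e2] at this
      exact d1 this.symm
    · intro x
      by_cases c1 : x = u
      · rw [c1, e1, e2]
      · by_cases c2 : x = w
        · rw [c2, e2, e1]
        · by_cases c3 : x = m u
          · rw [c3, e3, e4]
          · by_cases c4 : x = w'
            · rw [c4, e4, e3]
            · rw [e5 x c1 c2 c3 c4, e5 _ (n1 x c3) (n2 x c2) (n3 x c1) (n4 x c4), h1]
    · intro x hx
      by_cases c1 : x = u
      · rw [c1, e1]; exact huw
      · by_cases c2 : x = w
        · rw [c2, e2]; exact huw.symm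
        · by_cases c3 : x = m u
          · rw [c3, e3]; exact huw'
          · by_cases c4 : x = w'
            · rw [c4, e4]; exact huw'.symm
            · rw [e5 x c1 c2 c3 c4] at hx ⊢
              exact h2 x hx
    · intro x hx
      by_cases c1 : x = u
      · rw [c1, e1]; exact d1
      · by_cases c3 : x = m u
        · rw [c3, e3]; exact d4
        · have c2 : x ≠ w := by rintro rfl; exact hx hw
          have c4 : x ≠ w' := by rintro rfl; exact hx hw'
          rw [e5 x c1 c2 c3 c4]; exact hx

end Pool.Agent.J4.H77.CV
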