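import Pool.Agent.J4.H77.CV.Inv
import Pool.Agent.J4.H77.CV.Matching

set_option autoImplicit false

/-! # Complements of direct products: a bipartite rest -/

namespace Pool.Agent.J4.H77.CV

open Finset

theorem hall_on {W : Type} [DecidableEq W] (S : Finset W) (t : W → Finset W)
    (h : ∀ s ⊆ S, s.card ≤ (s.biUnion t).card) :
    ∃ g : W → W, (∀ a ∈ S, g a ∈ t a) ∧ ∀ a ∈ S, ∀ b ∈ S, g a = g b → a = b := by
  classical
  have h1 : ∀ s : Finset {a // a ∈ S}, s.card ≤ (s.biUnion (fun a => t a.1)).card := by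
    intro s
    have h2 := h (s.image Subtype.val) (by
      intro a ha
      obtain ⟨b, -, rfl⟩ := mem_image.1 ha
      exact b.2)
    rw [card_image_of_injective _ Subtype.val_injective] at h2
    refine h2.trans (card_le_card ?_)
    intro x hx
    obtain ⟨a, ha, hxa⟩ := mem_biUnion.1 hx
    obtain ⟨b, hb, rfl⟩ := mem_image.1 ha
    exact mem_biUnion.2 ⟨b, hb, hxa⟩
  obtain ⟨f, hf, hft⟩ := (all_card_le_biUnion_card_iff_exists_injective _).1 h1
  refine ⟨fun a => if ha : a ∈ S then f ⟨a, ha⟩ else a, ?_, ?_⟩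
  · intro a ha
    simp only [dif_pos ha]
    exact hft ⟨a, ha⟩
  · intro a ha b hb hab
    simp only [dif_pos ha, dif_pos hb] at hab
    exact congrArg Subtype.val (hf hab)

/-- In a bipartite graph there is an independent set `C` such that the other vertices can be matched
into `C`. -/
theorem koenig_indep {W : Type} [Fintype W] [DecidableEq W] (P : SimpleGraph W) (A B : Finset W)
    (hA : ∀ p ∈ A, ∀ q ∈ A, ¬ P.Adj p q) (hB : ∀ p ∈ B, ∀ q ∈ B, ¬ P.Adj p q)
    (hAB : Disjoint A B) :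
    ∃ C ⊆ A ∪ B, (∀ p ∈ C, ∀ q ∈ C, ¬ P.Adj p q) ∧ ∃ c : W → W,
      (∀ p ∈ A ∪ B, p ∉ C → c p ∈ C ∧ P.Adj p (c p)) ∧
      ∀ p ∈ A ∪ B, ∀ q ∈ A ∪ B, p ∉ C → q ∉ C → c p = c q → p = q := by
  classical
  let N : Finset W → Finset W := fun X => B.filter (fun b => ∃ a ∈ X, P.Adj a b)
  have hNB : ∀ X, N X ⊆ B := fun X => filter_subset _ _
  obtain ⟨X, hX, hmax⟩ := A.powerset.exists_max_image (fun X => X.card + (B.card - (N X).card))
    ⟨∅, empty_mem_powerset _⟩
  have hXA : X ⊆ A := mem_powerset.1 hX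
  have hmax' : ∀ Y ⊆ A, Y.card + (N X).card ≤ X.card + (N Y).card := by
    intro Y hY
    have h1 := hmax Y (mem_powerset.2 hY)
    have h2 := card_le_card (hNB X)
    have h3 := card_le_card (hNB Y)
    omega
  -- match `A \ X` into `B \ N X`
  obtain ⟨g, hg1, hg2⟩ := hall_on (A \ X) (fun a => (B \ N X).filter (fun b => P.Adj a b)) (by
    intro s hs
    have hsA : s ⊆ A := fun a ha => (mem_sdiff.1 (hs ha)).1
    have hd : Disjoint X s := by
      rw [disjoint_left]
      intro a ha ha'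
      exact (mem_sdiff.1 (hs ha')).2 ha
    have h1 := hmax' (X ∪ s) (union_subset hXA hsA)
    rw [card_union_of_disjoint hd] at h1
    have h2 : N (X ∪ s) ⊆ N X ∪ s.biUnion (fun a => (B \ N X).filter (fun b => P.Adj a b)) := by
      intro b hb
      obtain ⟨hbB, a, ha, hab⟩ := mem_filter.1 hb
      by_cases hbX : b ∈ N X
      · exact mem_union_left _ hbX
      · refine mem_union_right _ (mem_biUnion.2 ⟨a, ?_, mem_filter.2
          ⟨mem_sdiff.2 ⟨hbB, hbX⟩, hab⟩⟩)
        rcases mem_union.1 ha with h | h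
        · exact absurd (mem_filter.2 ⟨hbB, a, h, hab⟩) hbX
        · exact h
    have h3 := (card_le_card h2).trans (card_union_le _ _)
    omega)
  -- match `N X` into `X`
  obtain ⟨g', hg1', hg2'⟩ := hall_on (N X) (fun b => X.filter (fun a => P.Adj a b)) (by
    intro s hs
    let U := s.biUnion (fun b => X.filter (fun a => P.Adj a b))
    show s.card ≤ U.card
    have hUX : U ⊆ X := by
      intro a ha
      obtain ⟨b, -, hb⟩ := mem_biUnion.1 ha
      exact (mem_filter.1 hb).1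
    have h1 := hmax' (X \ U) (fun a ha => hXA (mem_sdiff.1 ha).1)
    have h2 : N (X \ U) ⊆ N X \ s := by
      intro b hb
      obtain ⟨hbB, a, ha, hab⟩ := mem_filter.1 hb
      obtain ⟨haX, haU⟩ := mem_sdiff.1 ha
      refine mem_sdiff.2 ⟨mem_filter.2 ⟨hbB, a, haX, hab⟩, fun hbs => haU ?_⟩
      exact mem_biUnion.2 ⟨b, hbs, mem_filter.2 ⟨haX, hab⟩⟩
    have h3 := card_le_card h2
    rw [card_sdiff_of_subset hs] at h3
    rw [card_sdiff_of_subset hUX] at h1
    have h4 := card_le_card hs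
    have h5 := card_le_card hUX
    omega)
  refine ⟨X ∪ (B \ N X), ?_, ?_, fun p => if p ∈ A then g p else g' p, ?_, ?_⟩
  · exact union_subset (hXA.trans subset_union_left)
      (sdiff_subset.trans subset_union_right)
  · have hmix : ∀ p ∈ X, ∀ q ∈ B \ N X, ¬ P.Adj p q := by
      intro p hp q hq hpq
      obtain ⟨hqB, hqN⟩ := mem_sdiff.1 hq
      exact hqN (mem_filter.2 ⟨hqB, p, hp, hpq⟩)
    intro p hp q hq
    rcases mem_union.1 hp with h1 | h1 <;> rcases mem_union.1 hq with h2 | h2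
    · exact hA _ (hXA h1) _ (hXA h2)
    · exact hmix _ h1 _ h2
    · exact fun h => hmix _ h2 _ h1 h.symm
    · exact hB _ (mem_sdiff.1 h1).1 _ (mem_sdiff.1 h2).1
  · intro p hp hpC
    have hpX : p ∉ X := fun h => hpC (mem_union_left _ h)
    by_cases hpA : p ∈ A
    · simp only [if_pos hpA]
      have h1 := hg1 p (mem_sdiff.2 ⟨hpA, hpX⟩)
      obtain ⟨h2, h3⟩ := mem_filter.1 h1
      exact ⟨mem_union_right _ h2, h3⟩
    · simp only [if_neg hpA]
      have hpB : p ∈ B := (mem_union.1 hp).resolve_left hpA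
      have hpN : p ∈ N X := by
        by_contra h
        exact hpC (mem_union_right _ (mem_sdiff.2 ⟨hpB, h⟩))
      obtain ⟨h2, h3⟩ := mem_filter.1 (hg1' p hpN)
      exact ⟨mem_union_left _ h2, h3.symm⟩
  · intro p hp q hq hpC hqC hpq
    have hpX : p ∉ X := fun h => hpC (mem_union_left _ h)
    have hqX : q ∉ X := fun h => hqC (mem_union_left _ h)
    have hN : ∀ r ∈ A ∪ B, r ∉ A → r ∉ X ∪ (B \ N X) → r ∈ N X := by
      intro r hr hrA hrC
      by_contra h
      exact hrC (mem_union_right _ (mem_sdiff.2 ⟨(mem_union.1 hr).resolve_left hrA, h⟩))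
    by_cases hpA : p ∈ A
    · by_cases hqA : q ∈ A
      · simp only [if_pos hpA, if_pos hqA] at hpq
        exact hg2 p (mem_sdiff.2 ⟨hpA, hpX⟩) q (mem_sdiff.2 ⟨hqA, hqX⟩) hpq
      · simp only [if_pos hpA, if_neg hqA] at hpq
        have h1 := (mem_filter.1 (hg1 p (mem_sdiff.2 ⟨hpA, hpX⟩))).1
        have h2 := (mem_filter.1 (hg1' q (hN q hq hqA hqC))).1
        rw [hpq] at h1
        exact absurd (mem_sdiff.1 h1).1 (disjoint_left.1 hAB (hXA h2))
    · by_cases hqA : q ∈ A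
      · simp only [if_neg hpA, if_pos hqA] at hpq
        have h1 := (mem_filter.1 (hg1 q (mem_sdiff.2 ⟨hqA, hqX⟩))).1
        have h2 := (mem_filter.1 (hg1' p (hN p hp hpA hpC))).1
        rw [← hpq] at h1
        exact absurd (mem_sdiff.1 h1).1 (disjoint_left.1 hAB (hXA h2))
      · simp only [if_neg hpA, if_neg hqA] at hpq
        exact hg2' p (hN p hp hpA hpC) q (hN q hq hqA hqC) hpq

/-- Two involutions with the same fixed points, which induce a bipartite subgraph. -/
theorem core_bip {W : Type} [Finite W] (P : SimpleGraph W) (α β : W → W)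
    (hα : ∀ p, α (α p) = p) (hβ : ∀ p, β (β p) = p) (hfix : ∀ p, α p = p ↔ β p = p)
    (hαa : ∀ p, α p ≠ p → P.Adj p (α p))
    (hβa : ∀ p, β p ≠ p → ¬ P.Adj p (β p))
    (hdom : ∀ p q, β p ≠ p → ¬ (P.Adj p q ∧ P.Adj (β p) q))
    (A : W → Prop) (hA : ∀ p q, β p = p → β q = q → A p → A q → ¬ P.Adj p q)
    (hB : ∀ p q, β p = p → β q = q → ¬ A p → ¬ A q → ¬ P.Adj p q) :
    ∃ n : ℕ, Pᶜ.Colorable n ∧ HM Pᶜ n := by
  classical
  haveI := Fintype.ofFinite W
  obtain ⟨o, ho⟩ : ∃ o : W → ℕ, Function.Injective o :=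
    ⟨fun v => (Fintype.equivFin W v : ℕ), fun a b h => (Fintype.equivFin W).injective (Fin.ext h)⟩
  obtain ⟨C, hCs, hCi, c, hc1, hc2⟩ := koenig_indep P
    (univ.filter (fun p => β p = p ∧ A p)) (univ.filter (fun p => β p = p ∧ ¬ A p))
    (by
      intro p hp q hq
      exact hA p q (mem_filter.1 hp).2.1 (mem_filter.1 hq).2.1 (mem_filter.1 hp).2.2
        (mem_filter.1 hq).2.2)
    (by
      intro p hp q hq
      exact hB p q (mem_filter.1 hp).2.1 (mem_filter.1 hq).2.1 (mem_filter.1 hp).2.2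
        (mem_filter.1 hq).2.2)
    (by
      rw [disjoint_left]
      intro p hp hq
      exact (mem_filter.1 hq).2.2 (mem_filter.1 hp).2.2)
  have hS : ∀ p, p ∈ univ.filter (fun p => β p = p ∧ A p) ∪ univ.filter (fun p => β p = p ∧ ¬ A p) ↔
      β p = p := by
    intro p
    simp only [mem_union, mem_filter, mem_univ, true_and]
    tauto
  have hCf : ∀ p ∈ C, β p = p := fun p hp => (hS p).1 (hCs hp)
  have e1 := two_mul_orbits o ho α hα
  have e2 := two_mul_orbits o ho β hβ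
  have e3 : univ.filter (fun p => α p = p) = univ.filter (fun p => β p = p) :=
    filter_congr fun p _ => hfix p
  have split : ∀ γ : W → W, (univ.filter (fun p => o p ≤ o (γ p))).card =
      (univ.filter (fun p => o p < o (γ p))).card + (univ.filter (fun p => γ p = p)).card := by
    intro γ
    rw [← card_union_of_disjoint]
    · congr 1
      ext p
      simp only [mem_union, mem_filter, mem_univ, true_and]
      constructor
      · intro h
        rcases lt_or_eq_of_le h with h | h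
        · exact Or.inl h
        · exact Or.inr (ho h).symm
      · rintro (h | h)
        · exact h.le
        · rw [h]
    · rw [disjoint_left]
      intro p hp hq
      have h1 := (mem_filter.1 hp).2
      rw [(mem_filter.1 hq).2] at h1
      exact lt_irrefl _ h1
  let I := {p : W // o p < o (α p)}
  let J := {p : W // o p < o (β p)}
  have hIJ : Fintype.card I = Fintype.card J := by
    rw [Fintype.card_subtype, Fintype.card_subtype]
    have s1 := split α
    have s2 := split β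
    rw [e3] at e1 s1
    omega
  refine ⟨Fintype.card (I ⊕ {p // p ∈ C}), ?_, ?_⟩
  · have hcol : ∀ q, ∃ x : I ⊕ {p // p ∈ C},
        (∃ i : I, x = Sum.inl i ∧ (q = i.1 ∨ q = α i.1)) ∨
        (∃ j : {p // p ∈ C}, x = Sum.inr j ∧ β q = q ∧ (q = j.1 ∨ (q ∉ C ∧ c q = j.1))) := by
      intro q
      by_cases hq : β q = q
      · by_cases hqC : q ∈ C
        · exact ⟨Sum.inr ⟨q, hqC⟩, Or.inr ⟨⟨q, hqC⟩, rfl, hq, Or.inl rfl⟩⟩
        · have h1 := (hc1 q ((hS q).2 hq) hqC).1
          exact ⟨Sum.inr ⟨c q, h1⟩, Or.inr ⟨⟨c q, h1⟩, rfl, hq, Or.inr ⟨hqC, rfl⟩⟩⟩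
      · have hq' : α q ≠ q := fun h => hq ((hfix q).1 h)
        have hne : o q ≠ o (α q) := fun h => hq' (ho h).symm
        rcases lt_or_gt_of_ne hne with h | h
        · exact ⟨Sum.inl ⟨q, h⟩, Or.inl ⟨⟨q, h⟩, rfl, Or.inl rfl⟩⟩
        · have h' : o (α q) < o (α (α q)) := by rw [hα]; exact h
          exact ⟨Sum.inl ⟨α q, h'⟩, Or.inl ⟨⟨α q, h'⟩, rfl, Or.inr (hα q).symm⟩⟩
    choose col hcol using hcol
    have CC : Pᶜ.Coloring (I ⊕ {p // p ∈ C}) := SimpleGraph.Coloring.mk col (by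
      intro q q' hqq heq
      rw [SimpleGraph.compl_adj] at hqq
      obtain ⟨hne, hna⟩ := hqq
      have hadj : ∀ i : I, P.Adj i.1 (α i.1) := by
        intro i
        refine hαa _ fun h => ?_
        have := i.2
        rw [h] at this
        exact lt_irrefl _ this
      rcases hcol q with ⟨i, hi, h1⟩ | ⟨j, hj, hf, h1⟩
      · rcases hcol q' with ⟨i', hi', h2⟩ | ⟨j', hj', hf', h2⟩
        · have : i = i' := by
            have := hi.symm.trans (heq.trans hi')
            simpa using this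
          subst this
          rcases h1 with h1 | h1 <;> rcases h2 with h2 | h2
          · exact hne (h1.trans h2.symm)
          · exact hna (by rw [h1, h2]; exact hadj i)
          · exact hna (by rw [h1, h2]; exact (hadj i).symm)
          · exact hne (h1.trans h2.symm)
        · have := hi.symm.trans (heq.trans hj')
          simp at this
      · rcases hcol q' with ⟨i', hi', h2⟩ | ⟨j', hj', hf', h2⟩
        · have := hj.symm.trans (heq.trans hi')
          simp at this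
        · have : j = j' := by
            have := hj.symm.trans (heq.trans hj')
            simpa using this
          subst this
          rcases h1 with h1 | ⟨h1, h1'⟩ <;> rcases h2 with h2 | ⟨h2, h2'⟩
          · exact hne (h1.trans h2.symm)
          · have h3 := (hc1 q' ((hS q').2 hf') h2).2
            rw [h2', ← h1] at h3
            exact hna h3.symm
          · have h3 := (hc1 q ((hS q).2 hf) h1).2
            rw [h1', ← h2] at h3
            exact hna h3
          · exact hne (hc2 q ((hS q).2 hf) q' ((hS q').2 hf') h1 h2 (h1'.trans h2'.symm)))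
    exact CC.colorable
  · have hcard : Fintype.card (I ⊕ {p // p ∈ C}) = Fintype.card (J ⊕ {p // p ∈ C}) := by
      rw [Fintype.card_sum, Fintype.card_sum, hIJ]
    rw [hcard]
    let B : J ⊕ {p // p ∈ C} → Set W := Sum.elim (fun j => {j.1, β j.1}) (fun j => {j.1})
    have hJ : ∀ j : J, β j.1 ≠ j.1 := by
      intro j h
      have := j.2
      rw [h] at this
      exact lt_irrefl _ this
    have hJb : ∀ j : J, β (β j.1) ≠ β j.1 := by
      intro j h
      rw [hβ] at h
      exact hJ j h.symm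
    have hdisj : ∀ i j : J, i ≠ j → i.1 ≠ j.1 ∧ i.1 ≠ β j.1 ∧ β i.1 ≠ β j.1 := by
      intro i j hij
      have hne : i.1 ≠ j.1 := fun h => hij (Subtype.ext h)
      refine ⟨hne, fun h => ?_, fun h => ?_⟩
      · have hi := i.2
        have hj := j.2
        have hb : β i.1 = j.1 := by rw [h, hβ]
        rw [hb] at hi
        rw [← h] at hj
        omega
      · exact hne (by rw [← hβ i.1, h, hβ])
    -- a pair is adjacent to all other vertices
    have step : ∀ (i : J) (q : W), q ≠ i.1 → q ≠ β i.1 →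
        ∃ u ∈ ({i.1, β i.1} : Set W), Pᶜ.Adj u q := by
      intro i q h1 h2
      by_cases h5 : P.Adj i.1 q
      · refine ⟨β i.1, Or.inr rfl, ?_⟩
        rw [SimpleGraph.compl_adj]
        exact ⟨fun h => h2 h.symm, fun h => hdom i.1 q (hJ i) ⟨h5, h⟩⟩
      · exact ⟨i.1, Or.inl rfl, by rw [SimpleGraph.compl_adj]; exact ⟨fun h => h1 h.symm, h5⟩⟩
    refine HM_of_type Pᶜ B ?_ ?_ ?_
    · rintro (i | i)
      · show (Pᶜ.induce ({i.1, β i.1} : Set W)).Connected
        refine Pool.Agent.J4.H77.DP.conn_two _ _ _ ?_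
        rw [SimpleGraph.compl_adj]
        exact ⟨fun h' => hJ i h'.symm, hβa _ (hJ i)⟩
      · exact Pool.Agent.J4.H77.DP.conn_one _ _
    · have mixed : ∀ (i : J) (j : {p // p ∈ C}), j.1 ≠ i.1 ∧ j.1 ≠ β i.1 := by
        intro i j
        refine ⟨fun h => ?_, fun h => ?_⟩
        · have := hCf j.1 j.2
          rw [h] at this
          exact hJ i this
        · have := hCf j.1 j.2
          rw [h] at this
          exact hJb i this
      rintro (i | i) (j | j) hij
      · obtain ⟨h1, h2, h3⟩ := hdisj i j (fun h => hij (by rw [h]))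
        obtain ⟨-, h2', -⟩ := hdisj j i (fun h => hij (by rw [h]))
        show Disjoint ({i.1, β i.1} : Set W) {j.1, β j.1}
        rw [Set.disjoint_left]
        rintro x (hx | hx) (hy | hy)
        · exact h1 (hx.symm.trans hy)
        · exact h2 (hx.symm.trans hy)
        · exact h2' (hy.symm.trans hx)
        · exact h3 (hx.symm.trans hy)
      · obtain ⟨h1, h2⟩ := mixed i j
        show Disjoint ({i.1, β i.1} : Set W) {j.1}
        rw [Set.disjoint_left]
        rintro x (hx | hx) hy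
        · exact h1 (hy.symm.trans hx)
        · exact h2 (hy.symm.trans hx)
      · obtain ⟨h1, h2⟩ := mixed j i
        show Disjoint ({i.1} : Set W) {j.1, β j.1}
        rw [Set.disjoint_left]
        rintro x hy (hx | hx)
        · exact h1 (hy.symm.trans hx)
        · exact h2 (hy.symm.trans hx)
      · show Disjoint ({i.1} : Set W) {j.1}
        rw [Set.disjoint_left]
        intro x hx hy
        apply hij
        have : i.1 = j.1 := hx.symm.trans hy
        rw [Subtype.ext this]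
    · have mixed : ∀ (i : J) (j : {p // p ∈ C}), j.1 ≠ i.1 ∧ j.1 ≠ β i.1 := by
        intro i j
        refine ⟨fun h => ?_, fun h => ?_⟩
        · have := hCf j.1 j.2
          rw [h] at this
          exact hJ i this
        · have := hCf j.1 j.2
          rw [h] at this
          exact hJb i this
      rintro (i | i) (j | j) hij
      · obtain ⟨h1, -, -⟩ := hdisj i j (fun h => hij (by rw [h]))
        obtain ⟨-, h2', -⟩ := hdisj j i (fun h => hij (by rw [h]))
        obtain ⟨u, hu, hadj⟩ := step i j.1 (fun h => h1 h.symm) h2'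
        exact ⟨u, hu, j.1, Or.inl rfl, hadj⟩
      · obtain ⟨h1, h2⟩ := mixed i j
        obtain ⟨u, hu, hadj⟩ := step i j.1 h1 h2
        exact ⟨u, hu, j.1, rfl, hadj⟩
      · obtain ⟨h1, h2⟩ := mixed j i
        obtain ⟨u, hu, hadj⟩ := step j i.1 h1 h2
        exact ⟨i.1, rfl, u, hu, hadj.symm⟩
      · refine ⟨i.1, rfl, j.1, rfl, ?_⟩
        rw [SimpleGraph.compl_adj]
        exact ⟨fun h => hij (by rw [Subtype.ext h]), hCi _ i.2 _ j.2⟩

/-- **Complements of direct products with a triangle-free factor.** -/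
theorem main_dp {V V' : Type} [Finite V] [Finite V'] (T : SimpleGraph V) (H : SimpleGraph V')
    (hT : ∀ u v w, T.Adj u v → T.Adj v w → ¬ T.Adj u w) (P : SimpleGraph (V × V'))
    (hP : ∀ p q, P.Adj p q ↔ T.Adj p.1 q.1 ∧ H.Adj p.2 q.2) :
    ∃ n : ℕ, Pᶜ.Colorable n ∧ HM Pᶜ n := by
  classical
  obtain ⟨m, m1, m2, m3, -⟩ := exists_max_matching T
  obtain ⟨n, n1, n2, n3, -⟩ := exists_max_matching H
  let α : V × V' → V × V' := fun p => if m p.1 ≠ p.1 ∧ n p.2 ≠ p.2 then (m p.1, n p.2) else p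
  let β : V × V' → V × V' := fun p => if m p.1 ≠ p.1 ∧ n p.2 ≠ p.2 then (m p.1, p.2) else p
  have a1 : ∀ p, (m p.1 ≠ p.1 ∧ n p.2 ≠ p.2) → α p = (m p.1, n p.2) := fun p h => by
    simp only [α, if_pos h]
  have a2 : ∀ p, ¬ (m p.1 ≠ p.1 ∧ n p.2 ≠ p.2) → α p = p := fun p h => by
    simp only [α, if_neg h]
  have b1 : ∀ p, (m p.1 ≠ p.1 ∧ n p.2 ≠ p.2) → β p = (m p.1, p.2) := fun p h => by
    simp only [β, if_pos h]
  have b2 : ∀ p, ¬ (m p.1 ≠ p.1 ∧ n p.2 ≠ p.2) → β p = p := fun p h => by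
    simp only [β, if_neg h]
  have afix : ∀ p, α p = p ↔ ¬ (m p.1 ≠ p.1 ∧ n p.2 ≠ p.2) := by
    intro p
    refine ⟨fun h hc => ?_, a2 p⟩
    rw [a1 p hc] at h
    exact hc.1 (congrArg Prod.fst h)
  have bfix : ∀ p, β p = p ↔ ¬ (m p.1 ≠ p.1 ∧ n p.2 ≠ p.2) := by
    intro p
    refine ⟨fun h hc => ?_, b2 p⟩
    rw [b1 p hc] at h
    exact hc.1 (congrArg Prod.fst h)
  have hm' : ∀ u, m u ≠ u → m (m u) ≠ m u := by intro u hu; rw [m1]; exact fun h => hu h.symm
  have hn' : ∀ u, n u ≠ u → n (n u) ≠ n u := by intro u hu; rw [n1]; exact fun h => hu h.symm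
  refine core_bip P α β ?_ ?_ ?_ ?_ ?_ ?_ (fun p => m p.1 = p.1) ?_ ?_
  · intro p
    by_cases h : m p.1 ≠ p.1 ∧ n p.2 ≠ p.2
    · rw [a1 p h, a1 (m p.1, n p.2) ⟨hm' _ h.1, hn' _ h.2⟩]
      show (m (m p.1), n (n p.2)) = p
      rw [m1, n1]
    · rw [a2 p h, a2 p h]
  · intro p
    by_cases h : m p.1 ≠ p.1 ∧ n p.2 ≠ p.2
    · rw [b1 p h, b1 (m p.1, p.2) ⟨hm' _ h.1, h.2⟩]
      show (m (m p.1), p.2) = p
      rw [m1]
    · rw [b2 p h, b2 p h]
  · intro p; rw [afix, bfix]
  · intro p hp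
    have h : m p.1 ≠ p.1 ∧ n p.2 ≠ p.2 := by
      by_contra hc
      exact hp (a2 p hc)
    rw [a1 p h, hP]
    exact ⟨m2 _ h.1, n2 _ h.2⟩
  · intro p hp
    have h : m p.1 ≠ p.1 ∧ n p.2 ≠ p.2 := by
      by_contra hc
      exact hp (b2 p hc)
    rw [b1 p h, hP]
    rintro ⟨-, h2⟩
    exact h2.ne rfl
  · intro p q hp
    have h : m p.1 ≠ p.1 ∧ n p.2 ≠ p.2 := by
      by_contra hc
      exact hp (b2 p hc)
    rw [b1 p h, hP, hP]
    rintro ⟨⟨h1, -⟩, ⟨h2, -⟩⟩
    exact hT _ _ _ (m2 _ h.1) h2 h1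
  · intro p q _ _ h1 h2
    rw [hP]
    rintro ⟨h3, -⟩
    exact m3 _ _ h1 h2 h3
  · intro p q hp hq h1 h2
    rw [hP]
    rintro ⟨-, h3⟩
    have hp' := (bfix p).1 hp
    have hq' := (bfix q).1 hq
    have e1 : n p.2 = p.2 := by
      by_contra h
      exact hp' ⟨h1, h⟩
    have e2 : n q.2 = q.2 := by
      by_contra h
      exact hq' ⟨h2, h⟩
    exact n3 _ _ e1 e2 h3

/-- The same if the second factor is triangle-free. -/
theorem main_dp' {V V' : Type} [Finite V] [Finite V'] (T : SimpleGraph V) (H : SimpleGraph V')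
    (hH : ∀ u v w, H.Adj u v → H.Adj v w → ¬ H.Adj u w) (P : SimpleGraph (V × V'))
    (hP : ∀ p q, P.Adj p q ↔ T.Adj p.1 q.1 ∧ H.Adj p.2 q.2) :
    ∃ n : ℕ, Pᶜ.Colorable n ∧ HM Pᶜ n := by
  classical
  obtain ⟨m, m1, m2, m3, -⟩ := exists_max_matching T
  obtain ⟨n, n1, n2, n3, -⟩ := exists_max_matching H
  let α : V × V' → V × V' := fun p => if m p.1 ≠ p.1 ∧ n p.2 ≠ p.2 then (m p.1, n p.2) else p
  let β : V × V' → V × V' := fun p => if m p.1 ≠ p.1 ∧ n p.2 ≠ p.2 then (p.1, n p.2) else p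
  have a1 : ∀ p, (m p.1 ≠ p.1 ∧ n p.2 ≠ p.2) → α p = (m p.1, n p.2) := fun p h => by
    simp only [α, if_pos h]
  have a2 : ∀ p, ¬ (m p.1 ≠ p.1 ∧ n p.2 ≠ p.2) → α p = p := fun p h => by
    simp only [α, if_neg h]
  have b1 : ∀ p, (m p.1 ≠ p.1 ∧ n p.2 ≠ p.2) → β p = (p.1, n p.2) := fun p h => by
    simp only [β, if_pos h]
  have b2 : ∀ p, ¬ (m p.1 ≠ p.1 ∧ n p.2 ≠ p.2) → β p = p := fun p h => by
    simp only [β, if_neg h]
  have afix : ∀ p, α p = p ↔ ¬ (m p.1 ≠ p.1 ∧ n p.2 ≠ p.2) := by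
    intro p
    refine ⟨fun h hc => ?_, a2 p⟩
    rw [a1 p hc] at h
    exact hc.1 (congrArg Prod.fst h)
  have bfix : ∀ p, β p = p ↔ ¬ (m p.1 ≠ p.1 ∧ n p.2 ≠ p.2) := by
    intro p
    refine ⟨fun h hc => ?_, b2 p⟩
    rw [b1 p hc] at h
    exact hc.2 (congrArg Prod.snd h)
  have hm' : ∀ u, m u ≠ u → m (m u) ≠ m u := by intro u hu; rw [m1]; exact fun h => hu h.symm
  have hn' : ∀ u, n u ≠ u → n (n u) ≠ n u := by intro u hu; rw [n1]; exact fun h => hu h.symm
  refine core_bip P α β ?_ ?_ ?_ ?_ ?_ ?_ (fun p => m p.1 = p.1) ?_ ?_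
  · intro p
    by_cases h : m p.1 ≠ p.1 ∧ n p.2 ≠ p.2
    · rw [a1 p h, a1 (m p.1, n p.2) ⟨hm' _ h.1, hn' _ h.2⟩]
      show (m (m p.1), n (n p.2)) = p
      rw [m1, n1]
    · rw [a2 p h, a2 p h]
  · intro p
    by_cases h : m p.1 ≠ p.1 ∧ n p.2 ≠ p.2
    · rw [b1 p h, b1 (p.1, n p.2) ⟨h.1, hn' _ h.2⟩]
      show (p.1, n (n p.2)) = p
      rw [n1]
    · rw [b2 p h, b2 p h]
  · intro p; rw [afix, bfix]
  · intro p hp
    have h : m p.1 ≠ p.1 ∧ n p.2 ≠ p.2 := by
      by_contra hc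
      exact hp (a2 p hc)
    rw [a1 p h, hP]
    exact ⟨m2 _ h.1, n2 _ h.2⟩
  · intro p hp
    have h : m p.1 ≠ p.1 ∧ n p.2 ≠ p.2 := by
      by_contra hc
      exact hp (b2 p hc)
    rw [b1 p h, hP]
    rintro ⟨h2, -⟩
    exact h2.ne rfl
  · intro p q hp
    have h : m p.1 ≠ p.1 ∧ n p.2 ≠ p.2 := by
      by_contra hc
      exact hp (b2 p hc)
    rw [b1 p h, hP, hP]
    rintro ⟨⟨-, h1⟩, ⟨-, h2⟩⟩
    exact hH _ _ _ (n2 _ h.2) h2 h1
  · intro p q _ _ h1 h2
    rw [hP]
    rintro ⟨h3, -⟩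
    exact m3 _ _ h1 h2 h3
  · intro p q hp hq h1 h2
    rw [hP]
    rintro ⟨-, h3⟩
    have hp' := (bfix p).1 hp
    have hq' := (bfix q).1 hq
    have e1 : n p.2 = p.2 := by
      by_contra h
      exact hp' ⟨h1, h⟩
    have e2 : n q.2 = q.2 := by
      by_contra h
      exact hq' ⟨h2, h⟩
    exact n3 _ _ e1 e2 h3

end Pool.Agent.J4.H77.CV
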