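import Pool.Agent.J4.H77.CV.Hall
import Pool.Agent.J4.H77.DP.All

set_option autoImplicit false

/-! # Hadwiger's conjecture for complements of regular covers: colouring and clique minor -/

namespace Pool.Agent.J4.H77.CV

open Finset

/-- A maximal matching, as an involution. -/
theorem exists_matching {V : Type} [Finite V] (T : SimpleGraph V) :
    ∃ m : V → V, (∀ v, m (m v) = v) ∧ (∀ v, m v ≠ v → T.Adj v (m v)) ∧
      ∀ u v, m u = u → m v = v → ¬ T.Adj u v := by
  classical
  haveI := Fintype.ofFinite V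
  let S : Finset (V → V) :=
    univ.filter (fun m => (∀ v, m (m v) = v) ∧ ∀ v, m v ≠ v → T.Adj v (m v))
  have hS : S.Nonempty := ⟨id, by simp [S]⟩
  obtain ⟨m, hm, hmax⟩ :=
    S.exists_max_image (fun m => (univ.filter (fun v => m v ≠ v)).card) hS
  obtain ⟨-, h1, h2⟩ := mem_filter.1 hm
  refine ⟨m, h1, h2, fun u v hu hv huv => ?_⟩
  have hne : u ≠ v := huv.ne
  let m' : V → V := fun x => if x = u then v else if x = v then u else m x
  have e1 : m' u = v := by simp [m']
  have e2 : m' v = u := by simp [m', hne.symm]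
  have e3 : ∀ x, x ≠ u → x ≠ v → m' x = m x := by intro x hx hy; simp [m', hx, hy]
  have n1 : ∀ x, x ≠ u → m x ≠ u := by
    intro x hx h; exact hx (by rw [← h1 x, h, hu])
  have n2 : ∀ x, x ≠ v → m x ≠ v := by
    intro x hx h; exact hx (by rw [← h1 x, h, hv])
  have hm' : m' ∈ S := by
    refine mem_filter.2 ⟨mem_univ _, fun x => ?_, fun x hx => ?_⟩
    · by_cases hxu : x = u
      · subst hxu; rw [e1, e2]
      · by_cases hxv : x = v
        · subst hxv; rw [e2, e1]
        · rw [e3 x hxu hxv, e3 _ (n1 x hxu) (n2 x hxv), h1]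
    · by_cases hxu : x = u
      · subst hxu; rw [e1]; exact huv
      · by_cases hxv : x = v
        · subst hxv; rw [e2]; exact huv.symm
        · rw [e3 x hxu hxv] at hx ⊢; exact h2 x hx
  have hlt : (univ.filter (fun v => m v ≠ v)).card < (univ.filter (fun v => m' v ≠ v)).card := by
    apply card_lt_card
    refine ⟨fun x hx => ?_, fun hsub => ?_⟩
    · have hx' := (mem_filter.1 hx).2
      have hxu : x ≠ u := by rintro rfl; exact hx' hu
      have hxv : x ≠ v := by rintro rfl; exact hx' hv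
      exact mem_filter.2 ⟨mem_univ _, by rw [e3 x hxu hxv]; exact hx'⟩
    · have : u ∈ univ.filter (fun v => m v ≠ v) :=
        hsub (mem_filter.2 ⟨mem_univ _, by rw [e1]; exact hne.symm⟩)
      exact (mem_filter.1 this).2 hu
  exact absurd (hmax m' hm') (not_le.2 hlt)

/-- Bijections between matched fibres give one map. -/
theorem glue {V W : Type} (f : W → V) (m : V → V) (m1 : ∀ v, m (m v) = v) (R : W → W → Prop)
    (h : ∀ u, m u ≠ u → ∃ g : {p // f p = u} ≃ {q // f q = m u}, ∀ p, R p.1 (g p).1) :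
    ∃ a : W → W, (∀ p, m (f p) ≠ f p → R p (a p) ∧ f (a p) = m (f p)) ∧
      (∀ q, m (f q) ≠ f q → ∃ p, f p = m (f q) ∧ a p = q) ∧
      (∀ p p', f p = f p' → m (f p) ≠ f p → a p = a p' → p = p') := by
  classical
  choose g hg using h
  let a : W → W := fun p => if h : m (f p) ≠ f p then (g (f p) h ⟨p, rfl⟩).1 else p
  have key : ∀ (v : V) (hv : m v ≠ v) (p : W) (hp : f p = v), a p = (g v hv ⟨p, hp⟩).1 := by
    intro v hv p hp
    subst hp
    simp only [a, dif_pos hv]
  refine ⟨a, fun p hp => ?_, fun q hq => ?_, fun p p' hpp hp haa => ?_⟩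
  · rw [key _ hp p rfl]
    exact ⟨hg _ hp ⟨p, rfl⟩, (g _ hp ⟨p, rfl⟩).2⟩
  · have hu : m (m (f q)) ≠ m (f q) := by rw [m1]; exact fun h => hq h.symm
    let x := (g (m (f q)) hu).symm ⟨q, (m1 (f q)).symm⟩
    refine ⟨x.1, x.2, ?_⟩
    rw [key _ hu x.1 x.2]
    have : (⟨x.1, x.2⟩ : {p // f p = m (f q)}) = x := rfl
    rw [this, Equiv.apply_symm_apply]
  · rw [key _ hp p rfl, key _ hp p' hpp.symm] at haa
    have h1 := (g _ hp).injective (Subtype.ext haa)
    exact congrArg Subtype.val h1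

/-- `K_m` is a minor of `G`. -/
def HM {V : Type} (G : SimpleGraph V) (m : ℕ) : Prop :=
  ∃ B : Fin m → Set V, (∀ i, (G.induce (B i)).Connected) ∧
    (∀ i j, i ≠ j → Disjoint (B i) (B j)) ∧
    ∀ i j, i ≠ j → ∃ u ∈ B i, ∃ v ∈ B j, G.Adj u v

theorem HM_of_type {V I : Type} [Fintype I] (G : SimpleGraph V) (B : I → Set V)
    (h1 : ∀ i, (G.induce (B i)).Connected) (h2 : ∀ i j, i ≠ j → Disjoint (B i) (B j))
    (h3 : ∀ i j, i ≠ j → ∃ u ∈ B i, ∃ v ∈ B j, G.Adj u v) : HM G (Fintype.card I) := by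
  let e := (Fintype.equivFin I).symm
  exact ⟨fun i => B (e i), fun i => h1 _, fun i j hij => h2 _ _ (fun h => hij (e.injective h)),
    fun i j hij => h3 _ _ (fun h => hij (e.injective h))⟩

theorem core {V W : Type} [Finite V] [Finite W] (T : SimpleGraph V) (P : SimpleGraph W) (f : W → V)
    (hf : ∀ p q, P.Adj p q → T.Adj (f p) (f q))
    (hα : ∀ u v, T.Adj u v → ∃ g : {p // f p = u} ≃ {q // f q = v}, ∀ p, P.Adj p.1 (g p).1)
    (hβ : ∀ u v, T.Adj u v → ∃ g : {p // f p = u} ≃ {q // f q = v}, ∀ p,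
      ¬ P.Adj p.1 (g p).1 ∧ ∀ z, ¬ (P.Adj p.1 z ∧ P.Adj (g p).1 z)) :
    ∃ n : ℕ, Pᶜ.Colorable n ∧ HM Pᶜ n := by
  classical
  haveI := Fintype.ofFinite V
  haveI := Fintype.ofFinite W
  obtain ⟨m, m1, m2, m3⟩ := exists_matching T
  obtain ⟨e, he⟩ : ∃ e : V → ℕ, Function.Injective e :=
    ⟨fun v => (Fintype.equivFin V v : ℕ), fun a b h => (Fintype.equivFin V).injective (Fin.ext h)⟩
  obtain ⟨a, a1, a2, -⟩ := glue f m m1 P.Adj (fun u hu => hα u (m u) (m2 u hu))
  obtain ⟨b, b1, -, b3⟩ := glue f m m1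
    (fun p q => ¬ P.Adj p q ∧ ∀ z, ¬ (P.Adj p z ∧ P.Adj q z))
    (fun u hu => hβ u (m u) (m2 u hu))
  let I := {p : W // e (f p) ≤ e (m (f p))}
  haveI : Fintype I := Fintype.ofFinite I
  refine ⟨Fintype.card I, ?_, ?_⟩
  · -- the colouring
    have hc : ∀ q, ∃ p, e (f p) ≤ e (m (f p)) ∧ (p = q ∨ (m (f p) ≠ f p ∧ a p = q)) := by
      intro q
      by_cases hq : e (f q) ≤ e (m (f q))
      · exact ⟨q, hq, Or.inl rfl⟩
      · have hne : m (f q) ≠ f q := by
          intro h; rw [h] at hq; exact hq le_rfl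
        obtain ⟨p, hp1, hp2⟩ := a2 q hne
        refine ⟨p, ?_, Or.inr ⟨?_, hp2⟩⟩
        · rw [hp1, m1]; omega
        · rw [hp1, m1]; exact fun h => hne h.symm
    choose c hc1 hc2 using hc
    have C : Pᶜ.Coloring I := SimpleGraph.Coloring.mk (fun q => ⟨c q, hc1 q⟩) (by
      intro q q' hqq heq
      have h0 : c q = c q' := congrArg Subtype.val heq
      rw [SimpleGraph.compl_adj] at hqq
      obtain ⟨hne, hna⟩ := hqq
      rcases hc2 q with h1 | ⟨h1, h1'⟩
      · rcases hc2 q' with h2 | ⟨h2, h2'⟩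
        · exact hne (h1.symm.trans (h0.trans h2))
        · have h3 := (a1 _ h2).1
          rw [h2', ← h0, h1] at h3
          exact hna h3
      · rcases hc2 q' with h2 | ⟨h2, h2'⟩
        · have h3 := (a1 _ h1).1
          rw [h1', h0, h2] at h3
          exact hna h3.symm
        · apply hne
          rw [← h1', ← h2', h0])
    exact C.colorable
  · -- the clique minor
    let b' : W → W := fun p => if m (f p) = f p then p else b p
    have B0 : ∀ p, m (f p) = f p → b' p = p := by intro p h; simp only [b', if_pos h]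
    have B1 : ∀ p, m (f p) ≠ f p → b' p = b p := by intro p h; simp only [b', if_neg h]
    have Bf : ∀ p, f (b' p) = m (f p) := by
      intro p
      by_cases h : m (f p) = f p
      · rw [B0 p h, h]
      · rw [B1 p h]; exact (b1 p h).2
    have hdisj : ∀ i j : I, i ≠ j → i.1 ≠ j.1 ∧ i.1 ≠ b' j.1 ∧ b' i.1 ≠ b' j.1 := by
      intro i j hij
      have hne : i.1 ≠ j.1 := fun h => hij (Subtype.ext h)
      refine ⟨hne, fun h => ?_, fun h => ?_⟩
      · have h1 : f i.1 = m (f j.1) := by rw [h]; exact Bf _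
        have h2 : m (f i.1) = f j.1 := by rw [h1, m1]
        have hi := i.2
        have hj := j.2
        rw [h2] at hi
        rw [← h1] at hj
        have h3 : f i.1 = f j.1 := he (le_antisymm hi hj)
        have h4 : m (f j.1) = f j.1 := by rw [← h1, h3]
        exact hne (h.trans (B0 _ h4))
      · have h1 : m (f i.1) = m (f j.1) := by rw [← Bf, ← Bf, h]
        have h2 : f i.1 = f j.1 := by rw [← m1 (f i.1), h1, m1]
        by_cases h3 : m (f i.1) = f i.1
        · have h4 : m (f j.1) = f j.1 := by rw [← h2]; exact h3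
          rw [B0 _ h3, B0 _ h4] at h
          exact hne h
        · have h4 : m (f j.1) ≠ f j.1 := by rw [← h2]; exact h3
          rw [B1 _ h3, B1 _ h4] at h
          exact hne (b3 _ _ h2 h3 h)
    refine HM_of_type Pᶜ (fun i : I => {i.1, b' i.1}) ?_ ?_ ?_
    · intro i
      by_cases h : m (f i.1) = f i.1
      · have hs : ({i.1, b' i.1} : Set W) = {i.1} := by rw [B0 _ h]; simp
        show (Pᶜ.induce ({i.1, b' i.1} : Set W)).Connected
        rw [hs]
        exact Pool.Agent.J4.H77.DP.conn_one _ _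
      · refine Pool.Agent.J4.H77.DP.conn_two _ _ _ ?_
        rw [SimpleGraph.compl_adj]
        refine ⟨fun h' => h ?_, ?_⟩
        · rw [← Bf, ← h']
        · rw [B1 _ h]; exact (b1 _ h).1.1
    · intro i j hij
      obtain ⟨h1, h2, h3⟩ := hdisj i j hij
      obtain ⟨-, h2', -⟩ := hdisj j i hij.symm
      rw [Set.disjoint_left]
      rintro x (hx | hx) (hy | hy)
      · exact h1 (hx.symm.trans hy)
      · exact h2 (hx.symm.trans hy)
      · exact h2' (hy.symm.trans hx)
      · exact h3 (hx.symm.trans hy)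
    · have step : ∀ i j : I, i ≠ j → m (f i.1) ≠ f i.1 →
          ∃ u ∈ ({i.1, b' i.1} : Set W), Pᶜ.Adj u j.1 := by
        intro i j hij hi
        obtain ⟨h1, -, -⟩ := hdisj i j hij
        obtain ⟨-, h2', -⟩ := hdisj j i hij.symm
        have h4 := (b1 _ hi).1.2 j.1
        by_cases h5 : P.Adj i.1 j.1
        · refine ⟨b' i.1, Or.inr rfl, ?_⟩
          rw [SimpleGraph.compl_adj]
          refine ⟨fun h => h2' h.symm, fun h => h4 ⟨h5, ?_⟩⟩
          rw [B1 _ hi] at h
          exact h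
        · exact ⟨i.1, Or.inl rfl, by rw [SimpleGraph.compl_adj]; exact ⟨h1, h5⟩⟩
      intro i j hij
      by_cases hi : m (f i.1) = f i.1
      · by_cases hj : m (f j.1) = f j.1
        · refine ⟨i.1, Or.inl rfl, j.1, Or.inl rfl, ?_⟩
          rw [SimpleGraph.compl_adj]
          exact ⟨(hdisj i j hij).1, fun h => m3 _ _ hi hj (hf _ _ h)⟩
        · obtain ⟨u, hu, hadj⟩ := step j i hij.symm hj
          exact ⟨i.1, Or.inl rfl, u, hu, hadj.symm⟩
      · obtain ⟨u, hu, hadj⟩ := step i j hij hi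
        exact ⟨u, hu, j.1, Or.inl rfl, hadj⟩

end Pool.Agent.J4.H77.CV
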