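import Mathlib

set_option autoImplicit false

/-! # Choosing one pair of vertices over every edge of a maximum matching -/

namespace Pool.Agent.J4.H77.CV

open Finset

/-- All four pairs are adjacent. -/
def Conf {W : Type} (P : SimpleGraph W) (x y : W × W) : Prop :=
  P.Adj x.1 y.1 ∧ P.Adj x.1 y.2 ∧ P.Adj x.2 y.1 ∧ P.Adj x.2 y.2

theorem Conf.symm {W : Type} {P : SimpleGraph W} {x y : W × W} (h : Conf P x y) : Conf P y x :=
  ⟨h.1.symm, h.2.2.1.symm, h.2.1.symm, h.2.2.2.symm⟩

theorem select {V W : Type} [Fintype V] [Fintype W] [DecidableEq V] [DecidableEq W]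
    (T : SimpleGraph V) (P : SimpleGraph W) (f : W → V) (k c : ℕ)
    (hf : ∀ p q, P.Adj p q → T.Adj (f p) (f q))
    (huniq : ∀ p q q', P.Adj p q → P.Adj p q' → f q = f q' → q = q')
    (hk : ∀ v, (univ.filter (fun p => f p = v)).card = k)
    (m : V → V) (m1 : ∀ v, m (m v) = v)
    (m4 : ∀ u w w', m u ≠ u → m w = w → m w' = w' → T.Adj u w → T.Adj (m u) w' → w = w')
    (hc : ∀ u v, T.Adj u v → {w | T.Adj u w ∧ T.Adj v w}.ncard ≤ c)
    (m2 : ∀ v, m v ≠ v → T.Adj v (m v))
    (hkc : c < 2 * (k * (k - 2))) (X : Finset V)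
    (hX : ∀ v ∈ X, m v ≠ v ∧ m v ∉ X) :
    ∃ y : V → W × W, (∀ v ∈ X, f (y v).1 = v ∧ f (y v).2 = m v ∧ ¬ P.Adj (y v).1 (y v).2 ∧
      ∀ z, m (f z) = f z → ¬ (P.Adj (y v).1 z ∧ P.Adj (y v).2 z)) ∧
      ∀ v ∈ X, ∀ v' ∈ X, v ≠ v' → ¬ Conf P (y v) (y v') := by
  classical
  induction X using Finset.induction_on with
  | empty =>
    rcases isEmpty_or_nonempty V with hV | ⟨⟨v0⟩⟩
    · exact ⟨fun v => (hV.false v).elim, by simp, by simp⟩
    · have : 0 < (univ.filter (fun p => f p = v0)).card := by
        rw [hk]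
        by_contra h
        have : k = 0 := by omega
        subst this
        simp at hkc
      obtain ⟨w, -⟩ := card_pos.1 this
      exact ⟨fun _ => (w, w), by simp, by simp⟩
  | insert a X ha ih =>
    obtain ⟨y, y1, y2⟩ := ih (fun v hv => ⟨(hX v (mem_insert_of_mem hv)).1,
      fun h => (hX v (mem_insert_of_mem hv)).2 (mem_insert_of_mem h)⟩)
    have hma : m a ≠ a := (hX a (mem_insert_self _ _)).1
    have hmaX : m a ∉ insert a X := (hX a (mem_insert_self _ _)).2
    have haT : T.Adj a (m a) := m2 a hma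
    let Fa := univ.filter (fun p => f p = a)
    let Fb := univ.filter (fun p => f p = m a)
    let C : Finset (W × W) := Fa ×ˢ Fb
    have hC : C.card = k * k := by
      show (Fa ×ˢ Fb).card = k * k
      rw [card_product, hk, hk]
    have hCm : ∀ x ∈ C, f x.1 = a ∧ f x.2 = m a := by
      intro x hx
      have := mem_product.1 hx
      exact ⟨(mem_filter.1 this.1).2, (mem_filter.1 this.2).2⟩
    let B1 := C.filter (fun x => P.Adj x.1 x.2)
    let B2 := C.filter (fun x => ∃ z, m (f z) = f z ∧ P.Adj x.1 z ∧ P.Adj x.2 z)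
    let B3 := X.biUnion (fun v => C.filter (fun x => Conf P x (y v)))
    have hB1 : B1.card ≤ k := by
      rw [← hk a]
      refine card_le_card_of_injOn (fun x => x.1) ?_ ?_
      · intro x hx
        have hx' := (mem_filter.1 hx).1
        exact mem_filter.2 ⟨mem_univ _, (hCm x hx').1⟩
      · intro x hx x' hx' h
        have h1 := mem_filter.1 hx
        have h2 := mem_filter.1 hx'
        have h : x.1 = x'.1 := h
        have h3 := h1.2
        rw [h] at h3
        exact Prod.ext h (huniq _ _ _ h3 h2.2 (by rw [(hCm x h1.1).2, (hCm x' h2.1).2]))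
    have hB2 : B2.card ≤ k := by
      rcases B2.eq_empty_or_nonempty with h | ⟨x0, hx0⟩
      · rw [h]; simp
      · obtain ⟨hx0C, z0, hz0, hz1, hz2⟩ := mem_filter.1 hx0
        have hw : ∀ x ∈ B2, ∃ z, f z = f z0 ∧ P.Adj x.1 z ∧ P.Adj x.2 z := by
          intro x hx
          obtain ⟨hxC, z, hz, hz1', hz2'⟩ := mem_filter.1 hx
          refine ⟨z, ?_, hz1', hz2'⟩
          refine m4 a (f z) (f z0) hma hz hz0 ?_ ?_
          · have := hf _ _ hz1'
            rwa [(hCm x hxC).1] at this
          · have := hf _ _ hz2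
            rwa [(hCm x0 hx0C).2] at this
        haveI : Nonempty W := ⟨z0⟩
        choose! g g1 g2 g3 using hw
        rw [← hk (f z0)]
        refine card_le_card_of_injOn g ?_ ?_
        · intro x hx
          exact mem_filter.2 ⟨mem_univ _, g1 x hx⟩
        · intro x hx x' hx' h
          have hxC := (mem_filter.1 hx).1
          have hxC' := (mem_filter.1 hx').1
          refine Prod.ext ?_ ?_
          · refine huniq (g x) _ _ (g2 x hx).symm ?_ (by rw [(hCm x hxC).1, (hCm x' hxC').1])
            rw [h]; exact (g2 x' hx').symm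
          · refine huniq (g x) _ _ (g3 x hx).symm ?_ (by rw [(hCm x hxC).2, (hCm x' hxC').2])
            rw [h]; exact (g3 x' hx').symm
    let Xc := X.filter (fun v => T.Adj a v ∧ T.Adj (m a) v ∧ T.Adj a (m v) ∧ T.Adj (m a) (m v))
    have hB3 : B3.card ≤ Xc.card := by
      have h1 : B3 ⊆ Xc.biUnion (fun v => C.filter (fun x => Conf P x (y v))) := by
        intro x hx
        obtain ⟨v, hv, hxv⟩ := mem_biUnion.1 hx
        obtain ⟨hxC, hconf⟩ := mem_filter.1 hxv
        refine mem_biUnion.2 ⟨v, mem_filter.2 ⟨hv, ?_⟩, hxv⟩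
        obtain ⟨q1, q2, -⟩ := y1 v hv
        obtain ⟨r1, r2⟩ := hCm x hxC
        have a1 := hf _ _ hconf.1
        have a2 := hf _ _ hconf.2.1
        have a3 := hf _ _ hconf.2.2.1
        have a4 := hf _ _ hconf.2.2.2
        rw [r1, q1] at a1
        rw [r1, q2] at a2
        rw [r2, q1] at a3
        rw [r2, q2] at a4
        exact ⟨a1, a3, a2, a4⟩
      refine (card_le_card h1).trans ?_
      have h2 := card_biUnion_le_card_mul Xc
        (fun v => C.filter (fun x => Conf P x (y v))) 1 (fun v _ => ?_)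
      · simpa using h2
      · refine card_le_one.2 fun x hx x' hx' => ?_
        obtain ⟨hxC, hx2⟩ := mem_filter.1 hx
        obtain ⟨hxC', hx2'⟩ := mem_filter.1 hx'
        refine Prod.ext ?_ ?_
        · exact huniq (y v).1 _ _ hx2.1.symm hx2'.1.symm (by rw [(hCm x hxC).1, (hCm x' hxC').1])
        · exact huniq (y v).1 _ _ hx2.2.2.1.symm hx2'.2.2.1.symm
            (by rw [(hCm x hxC).2, (hCm x' hxC').2])
    have hXc : 2 * Xc.card ≤ c := by
      have h1 : Disjoint Xc (Xc.image m) := by
        rw [disjoint_left]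
        intro v hv hv'
        obtain ⟨v', h1, h2⟩ := mem_image.1 hv'
        have h3 := (mem_filter.1 hv).1
        have h4 := (mem_filter.1 h1).1
        have := (hX v' (mem_insert_of_mem h4)).2
        rw [h2] at this
        exact this (mem_insert_of_mem h3)
      have h2 : (Xc ∪ Xc.image m).card = 2 * Xc.card := by
        rw [card_union_of_disjoint h1, card_image_of_injective]
        · ring
        · intro v v' h
          rw [← m1 v, h, m1]
      rw [← h2]
      refine le_trans ?_ (hc a (m a) haT)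
      rw [← Set.ncard_coe_finset]
      refine Set.ncard_le_ncard ?_ (Set.toFinite _)
      intro v hv
      rcases mem_union.1 (mem_coe.1 hv) with h | h
      · obtain ⟨-, q1, q2, -, -⟩ := mem_filter.1 h
        exact ⟨q1, q2⟩
      · obtain ⟨v', h', rfl⟩ := mem_image.1 h
        obtain ⟨-, -, -, q1, q2⟩ := mem_filter.1 h'
        exact ⟨q1, q2⟩
    have hlt : (B1 ∪ B2 ∪ B3).card < C.card := by
      have h1 := card_union_le (B1 ∪ B2) B3
      have h2 := card_union_le B1 B2
      rw [hC]
      have hk2 : 2 ≤ k := by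
        by_contra h
        have : k - 2 = 0 := by omega
        rw [this] at hkc
        simp at hkc
      obtain ⟨j, rfl⟩ : ∃ j, k = j + 2 := ⟨k - 2, by omega⟩
      have h3 : (j + 2) * (j + 2) = 2 * (j + 2) + (j + 2) * j := by ring
      have h4 : c < 2 * ((j + 2) * j) := by simpa using hkc
      omega
    obtain ⟨x, hxC, hx⟩ := exists_mem_notMem_of_card_lt_card hlt
    have n1 : ¬ P.Adj x.1 x.2 := fun h => hx (mem_union_left _ (mem_union_left _
      (mem_filter.2 ⟨hxC, h⟩)))
    have n2 : ∀ z, m (f z) = f z → ¬ (P.Adj x.1 z ∧ P.Adj x.2 z) := fun z hz h =>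
      hx (mem_union_left _ (mem_union_right _ (mem_filter.2 ⟨hxC, z, hz, h⟩)))
    have n3 : ∀ v ∈ X, ¬ Conf P x (y v) := fun v hv h =>
      hx (mem_union_right _ (mem_biUnion.2 ⟨v, hv, mem_filter.2 ⟨hxC, h⟩⟩))
    refine ⟨fun v => if v = a then x else y v, ?_, ?_⟩
    · intro v hv
      rcases mem_insert.1 hv with rfl | hv'
      · simp only [if_true]
        exact ⟨(hCm x hxC).1, (hCm x hxC).2, n1, n2⟩
      · have : v ≠ a := by rintro rfl; exact ha hv'
        simp only [if_neg this]
        exact y1 v hv'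
    · intro v hv v' hv' hvv
      rcases mem_insert.1 hv with rfl | hv1
      · rcases mem_insert.1 hv' with rfl | hv2
        · exact absurd rfl hvv
        · have : v' ≠ v := Ne.symm hvv
          simp only [if_true, if_neg this]
          exact n3 v' hv2
      · rcases mem_insert.1 hv' with rfl | hv2
        · simp only [if_true, if_neg hvv]
          exact fun h => n3 v hv1 h.symm
        · have q1 : v ≠ a := by rintro rfl; exact ha hv1
          have q2 : v' ≠ a := by rintro rfl; exact ha hv2
          simp only [if_neg q1, if_neg q2]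
          exact y2 v hv1 v' hv2 hvv

end Pool.Agent.J4.H77.CV
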