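import Pool.Agent.J4.H77.CV.Inv
import Pool.Agent.J4.H77.CV.Matching
import Pool.Agent.J4.H77.CV.Select

set_option autoImplicit false

/-! # Hadwiger's conjecture for complements of covering graphs -/

namespace Pool.Agent.J4.H77.CV

open Finset

/-- A finite type with an even number of elements has an involution without fixed points. -/
theorem exists_pairing {A : Type} [Fintype A] (h : Even (Fintype.card A)) :
    ∃ σ : A → A, (∀ a, σ (σ a) = a) ∧ ∀ a, σ a ≠ a := by
  obtain ⟨j, hj⟩ := h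
  have e : A ≃ Fin j ⊕ Fin j := Fintype.equivOfCardEq (by simp [hj])
  refine ⟨fun a => e.symm (Sum.swap (e a)), fun a => by simp, fun a ha => ?_⟩
  have h1 : Sum.swap (e a) = e a := by
    have := congrArg e ha
    simpa using this
  rcases h2 : e a with x | x <;> rw [h2] at h1 <;> simp at h1

/-- Pairings of the sets `{p | f p = v ∧ Q p}` give one map. -/
theorem glue_pairing {V W : Type} [Finite W] (f : W → V) (Q : W → Prop)
    (h : ∀ v, (∃ p, f p = v ∧ Q p) → Even (Nat.card {p // f p = v ∧ Q p})) :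
    ∃ σ : W → W, ∀ p, Q p → f (σ p) = f p ∧ Q (σ p) ∧ σ (σ p) = p ∧ σ p ≠ p := by
  classical
  have h' : ∀ v, ∃ s : {p // f p = v ∧ Q p} → {p // f p = v ∧ Q p},
      (∀ a, s (s a) = a) ∧ ∀ a, s a ≠ a := by
    intro v
    haveI := Fintype.ofFinite {p // f p = v ∧ Q p}
    by_cases hv : ∃ p, f p = v ∧ Q p
    · refine exists_pairing ?_
      have := h v hv
      rwa [Nat.card_eq_fintype_card] at this
    · exact ⟨id, fun a => rfl, fun a => (hv ⟨a.1, a.2⟩).elim⟩
  choose s s1 s2 using h'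
  let σ : W → W := fun p => if hp : Q p then (s (f p) ⟨p, rfl, hp⟩).1 else p
  have key : ∀ v p (hp : f p = v ∧ Q p), σ p = (s v ⟨p, hp⟩).1 := by
    rintro v p ⟨rfl, hp⟩
    simp only [σ, dif_pos hp]
  refine ⟨σ, fun p hp => ?_⟩
  have k1 := key (f p) p ⟨rfl, hp⟩
  have k2 := (s (f p) ⟨p, rfl, hp⟩).2
  rw [← k1] at k2
  refine ⟨k2.1, k2.2, ?_, ?_⟩
  · rw [key (f p) (σ p) k2]
    have : (⟨σ p, k2⟩ : {q // f q = f p ∧ Q q}) = s (f p) ⟨p, rfl, hp⟩ := Subtype.ext k1
    rw [this, s1]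
  · rw [k1]
    exact fun h => s2 (f p) ⟨p, rfl, hp⟩ (Subtype.ext h)

/-- An involution from bijections between matched fibres. -/
theorem glue_inv {V W : Type} [Finite V] (f : W → V) (m : V → V) (m1 : ∀ v, m (m v) = v)
    (R : W → W → Prop) (hR : ∀ p q, R p q → R q p)
    (h : ∀ u, m u ≠ u → ∃ g : {p // f p = u} ≃ {q // f q = m u}, ∀ p, R p.1 (g p).1) :
    ∃ a : W → W, (∀ p, a (a p) = p) ∧ (∀ p, m (f p) = f p → a p = p) ∧
      (∀ p, m (f p) ≠ f p → R p (a p) ∧ f (a p) = m (f p)) := by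
  classical
  haveI := Fintype.ofFinite V
  obtain ⟨e, he⟩ : ∃ e : V → ℕ, Function.Injective e :=
    ⟨fun v => (Fintype.equivFin V v : ℕ), fun a b h => (Fintype.equivFin V).injective (Fin.ext h)⟩
  obtain ⟨a0, a1, a2, a3⟩ := glue f m m1 R h
  have hex : ∀ q, ∃ p, (m (f q) = f q → p = q) ∧ (m (f q) ≠ f q → f p = m (f q) ∧
      (e (f q) < e (m (f q)) → p = a0 q) ∧ (¬ e (f q) < e (m (f q)) → a0 p = q)) := by
    intro q
    by_cases h1 : m (f q) = f q
    · exact ⟨q, fun _ => rfl, fun h => absurd h1 h⟩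
    · by_cases h2 : e (f q) < e (m (f q))
      · exact ⟨a0 q, fun h => absurd h h1, fun _ => ⟨(a1 q h1).2, fun _ => rfl,
          fun h => absurd h2 h⟩⟩
      · obtain ⟨p, hp1, hp2⟩ := a2 q h1
        exact ⟨p, fun h => absurd h h1, fun _ => ⟨hp1, fun h => absurd h h2, fun _ => hp2⟩⟩
  choose a b1 b2 using hex
  refine ⟨a, fun p => ?_, b1, fun p hp => ?_⟩
  · by_cases h1 : m (f p) = f p
    · rw [b1 p h1, b1 p h1]
    · obtain ⟨c1, c2, c3⟩ := b2 p h1
      have hf1 : f (a p) = m (f p) := c1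
      have hf2 : m (f (a p)) = f p := by rw [hf1, m1]
      have h1' : m (f (a p)) ≠ f (a p) := by rw [hf2, hf1]; exact fun h => h1 h.symm
      obtain ⟨d1, d2, d3⟩ := b2 (a p) h1'
      by_cases h2 : e (f p) < e (m (f p))
      · have h3 : ¬ e (f (a p)) < e (m (f (a p))) := by rw [hf2, hf1]; omega
        have h4 := d3 h3
        rw [c2 h2] at h4
        refine (a3 _ _ ?_ h1 ?_).symm
        · rw [d1, hf2]
        · rw [← c2 h2] at h4
          rw [h4]; exact (c2 h2).symm
      · have hne : e (f p) ≠ e (m (f p)) := fun h => h1 (he h).symm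
        have h3 : e (f (a p)) < e (m (f (a p))) := by rw [hf2, hf1]; omega
        rw [d2 h3]
        exact c3 h2
  · obtain ⟨c1, c2, c3⟩ := b2 p hp
    refine ⟨?_, c1⟩
    by_cases h2 : e (f p) < e (m (f p))
    · rw [c2 h2]; exact (a1 p hp).1
    · have h3 := c3 h2
      have hf2 : m (f (a p)) = f p := by rw [c1, m1]
      have h1' : m (f (a p)) ≠ f (a p) := by rw [hf2, c1]; exact fun h => hp h.symm
      have := (a1 (a p) h1').1
      rw [h3] at this
      exact hR _ _ this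

end Pool.Agent.J4.H77.CV
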