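import Mathlib

set_option autoImplicit false

/-! # Perfect matchings in regular bipartite graphs and in dense bipartite graphs -/

namespace Pool.Agent.J4.H77.CV

open Finset

theorem exists_equiv {A B : Type} [Fintype A] [Fintype B] (R : A → B → Prop)
    (hcard : Fintype.card A = Fintype.card B)
    (hall : ∀ s : Finset A, ∃ t : Finset B, (∀ b ∈ t, ∃ a ∈ s, R a b) ∧ s.card ≤ t.card) :
    ∃ g : A ≃ B, ∀ a, R a (g a) := by
  classical
  have h1 : ∀ s : Finset A, s.card ≤ (univ.filter (fun b => ∃ a ∈ s, R a b)).card := by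
    intro s
    obtain ⟨t, ht, hst⟩ := hall s
    exact hst.trans (card_le_card fun b hb => mem_filter.2 ⟨mem_univ _, ht b hb⟩)
  obtain ⟨g, hg, hR⟩ := (Fintype.all_card_le_filter_rel_iff_exists_injective R).1 h1
  have hb : Function.Bijective g := (Fintype.bijective_iff_injective_and_card g).2 ⟨hg, hcard⟩
  exact ⟨Equiv.ofBijective g hb, fun a => hR a⟩

/-- A bipartite graph in which all degrees are `r > 0` has a perfect matching. -/
theorem equiv_of_regular {A B : Type} [Fintype A] [Fintype B] (R : A → B → Prop) (r : ℕ)
    (hr : 0 < r) (hA : ∀ a, Nat.card {b // R a b} = r) (hB : ∀ b, Nat.card {a // R a b} = r)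
    (hcard : Fintype.card A = Fintype.card B) :
    ∃ g : A ≃ B, ∀ a, R a (g a) := by
  classical
  refine exists_equiv R hcard fun s => ⟨univ.filter (fun b => ∃ a ∈ s, R a b), ?_, ?_⟩
  · intro b hb
    exact (mem_filter.1 hb).2
  · have key : s.card * r ≤ (univ.filter (fun b => ∃ a ∈ s, R a b)).card * r := by
      refine card_mul_le_card_mul R (fun a ha => ?_) (fun b _ => ?_)
      · rw [← hA a, Nat.card_eq_fintype_card, Fintype.card_subtype]
        refine card_le_card fun b hb => ?_
        have hb' := (mem_filter.1 hb).2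
        exact mem_filter.2 ⟨mem_filter.2 ⟨mem_univ _, a, ha, hb'⟩, hb'⟩
      · rw [← hB b, Nat.card_eq_fintype_card, Fintype.card_subtype]
        refine card_le_card fun a ha => ?_
        exact mem_filter.2 ⟨mem_univ _, (mem_filter.1 ha).2⟩
    exact Nat.le_of_mul_le_mul_right key hr

/-- If every vertex of a balanced complete bipartite graph with `k ≥ 2 D` vertices on each side is in
at most `D` forbidden edges, then there is a perfect matching without forbidden edges. -/
theorem equiv_of_forbidden {A B : Type} [Fintype A] [Fintype B] (F : A → B → Prop) (D : ℕ)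
    (hA : ∀ a, Nat.card {b // F a b} ≤ D) (hB : ∀ b, Nat.card {a // F a b} ≤ D)
    (hcard : Fintype.card A = Fintype.card B) (hk : 2 * D ≤ Fintype.card A) :
    ∃ g : A ≃ B, ∀ a, ¬ F a (g a) := by
  classical
  refine exists_equiv (fun a b => ¬ F a b) hcard fun s => ?_
  rcases s.eq_empty_or_nonempty with rfl | ⟨a, ha⟩
  · exact ⟨∅, by simp, by simp⟩
  by_cases hs : s.card + D ≤ Fintype.card A
  · refine ⟨univ.filter (fun b => ¬ F a b), fun b hb => ⟨a, ha, (mem_filter.1 hb).2⟩, ?_⟩
    have h1 := hA a
    rw [Nat.card_eq_fintype_card, Fintype.card_subtype] at h1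
    have h2 := card_filter_add_card_filter_not (s := (univ : Finset B)) (fun b => F a b)
    rw [card_univ] at h2
    omega
  · refine ⟨univ, fun b _ => ?_, ?_⟩
    · by_contra hcon
      push Not at hcon
      have h1 := hB b
      rw [Nat.card_eq_fintype_card, Fintype.card_subtype] at h1
      have h2 : s.card ≤ (univ.filter (fun a => F a b)).card :=
        card_le_card fun a ha => mem_filter.2 ⟨mem_univ _, hcon a ha⟩
      omega
    · rw [card_univ, ← hcard]
      exact card_le_univ s

end Pool.Agent.J4.H77.CV
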