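import Pool.Agent.J4.H77.CV.Core

set_option autoImplicit false

/-! # Colourings and clique minors of complements from two involutions -/

namespace Pool.Agent.J4.H77.CV

open Finset

/-- The number of orbits of an involution. -/
theorem two_mul_orbits {W : Type} [Fintype W] [DecidableEq W] (o : W → ℕ)
    (ho : Function.Injective o) (γ : W → W) (hγ : ∀ p, γ (γ p) = p) :
    2 * (univ.filter (fun p => o p ≤ o (γ p))).card =
      Fintype.card W + (univ.filter (fun p => γ p = p)).card := by
  have h1 : (univ.filter (fun p => o p ≤ o (γ p))).card =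
      (univ.filter (fun p => o (γ p) ≤ o p)).card := by
    refine card_bij (fun p _ => γ p) ?_ ?_ ?_
    · intro p hp
      have := (mem_filter.1 hp).2
      exact mem_filter.2 ⟨mem_univ _, by rw [hγ]; exact this⟩
    · intro p _ q _ h
      rw [← hγ p, h, hγ]
    · intro q hq
      have := (mem_filter.1 hq).2
      exact ⟨γ q, mem_filter.2 ⟨mem_univ _, by rw [hγ]; exact this⟩, hγ q⟩
  have h2 := card_union_add_card_inter (univ.filter (fun p => o p ≤ o (γ p)))
    (univ.filter (fun p => o (γ p) ≤ o p))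
  have h3 : univ.filter (fun p => o p ≤ o (γ p)) ∪ univ.filter (fun p => o (γ p) ≤ o p) =
      univ := by
    ext p
    simp only [mem_union, mem_filter, mem_univ, true_and, iff_true]
    exact le_total _ _
  have h4 : univ.filter (fun p => o p ≤ o (γ p)) ∩ univ.filter (fun p => o (γ p) ≤ o p) =
      univ.filter (fun p => γ p = p) := by
    ext p
    simp only [mem_inter, mem_filter, mem_univ, true_and]
    constructor
    · rintro ⟨h, h'⟩
      exact (ho (le_antisymm h h')).symm
    · intro h
      rw [h]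
      exact ⟨le_rfl, le_rfl⟩
  rw [h3, h4, card_univ] at h2
  omega

/-- Two involutions with the same fixed points: `α` moves vertices to neighbours, `β` forms the
branch sets. -/
theorem core' {W : Type} [Finite W] (P : SimpleGraph W) (α β : W → W)
    (hα : ∀ p, α (α p) = p) (hβ : ∀ p, β (β p) = p) (hfix : ∀ p, α p = p ↔ β p = p)
    (hαa : ∀ p, α p ≠ p → P.Adj p (α p))
    (hβa : ∀ p, β p ≠ p → ¬ P.Adj p (β p))
    (h0 : ∀ p q, β p = p → β q = q → ¬ P.Adj p q)
    (h1 : ∀ p q, β p ≠ p → β q = q → ¬ (P.Adj p q ∧ P.Adj (β p) q))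
    (h2 : ∀ p q, β p ≠ p → β q ≠ q → q ≠ p → q ≠ β p →
      ¬ (P.Adj p q ∧ P.Adj p (β q) ∧ P.Adj (β p) q ∧ P.Adj (β p) (β q))) :
    ∃ n : ℕ, Pᶜ.Colorable n ∧ HM Pᶜ n := by
  classical
  haveI := Fintype.ofFinite W
  obtain ⟨o, ho⟩ : ∃ o : W → ℕ, Function.Injective o :=
    ⟨fun v => (Fintype.equivFin W v : ℕ), fun a b h => (Fintype.equivFin W).injective (Fin.ext h)⟩
  have e1 := two_mul_orbits o ho α hα
  have e2 := two_mul_orbits o ho β hβ
  have e3 : univ.filter (fun p => α p = p) = univ.filter (fun p => β p = p) :=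
    filter_congr fun p _ => hfix p
  let I := {p : W // o p ≤ o (α p)}
  let J := {p : W // o p ≤ o (β p)}
  have hIJ : Fintype.card I = Fintype.card J := by
    rw [Fintype.card_subtype, Fintype.card_subtype]
    rw [e3] at e1
    omega
  refine ⟨Fintype.card I, ?_, ?_⟩
  · have hc : ∀ q, ∃ p, o p ≤ o (α p) ∧ (p = q ∨ α p = q) := by
      intro q
      rcases le_total (o q) (o (α q)) with h | h
      · exact ⟨q, h, Or.inl rfl⟩
      · exact ⟨α q, by rw [hα]; exact h, Or.inr (hα q)⟩
    choose c hc1 hc2 using hc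
    have key : ∀ p : W, α p ≠ p → P.Adj p (α p) := hαa
    have C : Pᶜ.Coloring I := SimpleGraph.Coloring.mk (fun q => ⟨c q, hc1 q⟩) (by
      intro q q' hqq heq
      have h0' : c q = c q' := congrArg Subtype.val heq
      rw [SimpleGraph.compl_adj] at hqq
      obtain ⟨hne, hna⟩ := hqq
      rcases hc2 q with h1 | h1 <;> rcases hc2 q' with h2 | h2
      · exact hne (h1.symm.trans (h0'.trans h2))
      · rw [← h0', h1] at h2
        -- `α q = q'`
        refine hna ?_
        rw [← h2]
        refine key q ?_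
        rw [h2]
        exact fun h => hne h.symm
      · rw [h0', h2] at h1
        refine hna (SimpleGraph.Adj.symm ?_)
        rw [← h1]
        refine key q' ?_
        rw [h1]
        exact hne
      · exact hne (by rw [← h1, ← h2, h0']))
    exact C.colorable
  · rw [hIJ]
    have hdisj : ∀ i j : J, i ≠ j → i.1 ≠ j.1 ∧ i.1 ≠ β j.1 ∧ β i.1 ≠ β j.1 := by
      intro i j hij
      have hne : i.1 ≠ j.1 := fun h => hij (Subtype.ext h)
      refine ⟨hne, fun h => ?_, fun h => ?_⟩
      · have hi := i.2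
        have hj := j.2
        have hb : β i.1 = j.1 := by rw [h, hβ]
        rw [hb] at hi
        rw [← h] at hj
        exact hne (ho (le_antisymm hi hj))
      · exact hne (by rw [← hβ i.1, h, hβ])
    refine HM_of_type Pᶜ (fun i : J => {i.1, β i.1}) ?_ ?_ ?_
    · intro i
      by_cases h : β i.1 = i.1
      · have hs : ({i.1, β i.1} : Set W) = {i.1} := by rw [h]; simp
        show (Pᶜ.induce ({i.1, β i.1} : Set W)).Connected
        rw [hs]
        exact Pool.Agent.J4.H77.DP.conn_one _ _
      · refine Pool.Agent.J4.H77.DP.conn_two _ _ _ ?_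
        rw [SimpleGraph.compl_adj]
        exact ⟨fun h' => h h'.symm, hβa _ h⟩
    · intro i j hij
      obtain ⟨h1, h2, h3⟩ := hdisj i j hij
      obtain ⟨-, h2', -⟩ := hdisj j i hij.symm
      rw [Set.disjoint_left]
      rintro x (hx | hx) (hy | hy)
      · exact h1 (hx.symm.trans hy)
      · exact h2 (hx.symm.trans hy)
      · exact h2' (hy.symm.trans hx)
      · exact h3 (hx.symm.trans hy)
    · intro i j hij
      obtain ⟨d1, d2, d3⟩ := hdisj i j hij
      obtain ⟨-, d2', -⟩ := hdisj j i hij.symm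
      by_contra hcon
      have hall : ∀ u ∈ ({i.1, β i.1} : Set W), ∀ v ∈ ({j.1, β j.1} : Set W), u ≠ v →
          P.Adj u v := by
        intro u hu v hv huv
        by_contra hna
        exact hcon ⟨u, hu, v, hv, by rw [SimpleGraph.compl_adj]; exact ⟨huv, hna⟩⟩
      have hm1 : i.1 ∈ ({i.1, β i.1} : Set W) := Or.inl rfl
      have hm2 : β i.1 ∈ ({i.1, β i.1} : Set W) := Or.inr rfl
      have hm3 : j.1 ∈ ({j.1, β j.1} : Set W) := Or.inl rfl
      have hm4 : β j.1 ∈ ({j.1, β j.1} : Set W) := Or.inr rfl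
      have a1 := hall _ hm1 _ hm3 d1
      have a2 := hall _ hm1 _ hm4 d2
      have a3 := hall _ hm2 _ hm3 (fun h => d2' h.symm)
      have a4 := hall _ hm2 _ hm4 d3
      by_cases hi : β i.1 = i.1
      · by_cases hj : β j.1 = j.1
        · exact h0 _ _ hi hj a1
        · exact h1 j.1 i.1 hj hi ⟨a1.symm, a2.symm⟩
      · by_cases hj : β j.1 = j.1
        · exact h1 i.1 j.1 hi hj ⟨a1, a3⟩
        · exact h2 i.1 j.1 hi hj (fun h => d1 h.symm) (fun h => d2' h) ⟨a1, a2, a3, a4⟩

end Pool.Agent.J4.H77.CV
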