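import Pool.Agent.J4.H77.CV.Cover

set_option autoImplicit false

/-! # Hadwiger's conjecture for complements of covering graphs: the theorem -/

namespace Pool.Agent.J4.H77.CV

open Finset

theorem main {V W : Type} [Finite V] [Finite W] (T : SimpleGraph V) (P : SimpleGraph W) (f : W → V)
    (k c : ℕ) (hf : ∀ p q, P.Adj p q → T.Adj (f p) (f q))
    (hlift : ∀ p v, T.Adj (f p) v → ∃! q, f q = v ∧ P.Adj p q)
    (hk : ∀ v, Nat.card {p // f p = v} = k)
    (hc : ∀ u v, T.Adj u v → {w | T.Adj u w ∧ T.Adj v w}.ncard ≤ c)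
    (h : Even k ∨ c < 2 * (k * (k - 2))) :
    ∃ n : ℕ, Pᶜ.Colorable n ∧ HM Pᶜ n := by
  classical
  haveI := Fintype.ofFinite V
  haveI := Fintype.ofFinite W
  obtain ⟨m, m1, m2, m3, m4⟩ := exists_max_matching T
  have huniq : ∀ p q q', P.Adj p q → P.Adj p q' → f q = f q' → q = q' := by
    intro p q q' h1 h2 h3
    exact (hlift p (f q) (hf _ _ h1)).unique ⟨rfl, h1⟩ ⟨h3.symm, h2⟩
  have hsame : ∀ p q r, f p = f q → p ≠ q → ¬ (P.Adj p r ∧ P.Adj q r) := by
    intro p q r h1 h2 ⟨h3, h4⟩
    exact h2 (huniq r p q h3.symm h4.symm h1)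
  have hfib : ∀ p q, f p = f q → ¬ P.Adj p q := by
    intro p q h1 h2
    have := hf _ _ h2
    rw [h1] at this
    exact this.ne rfl
  -- the matching along edges of `P`
  obtain ⟨α, α1, α2, α3⟩ := glue_inv f m m1 P.Adj (fun p q h => h.symm) (by
    intro u hu
    have hadj := m2 u hu
    have hex : ∀ p : {p // f p = u}, ∃ q : {q // f q = m u}, P.Adj p.1 q.1 := by
      rintro ⟨p, rfl⟩
      obtain ⟨q, ⟨h1, h2⟩, -⟩ := hlift p (m (f p)) hadj
      exact ⟨⟨q, h1⟩, h2⟩
    choose g hg using hex
    have hbij : Function.Bijective g := by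
      constructor
      · intro p p' hpp
        have h1 := hg p
        have h2 := hg p'
        rw [← hpp] at h2
        exact Subtype.ext (huniq _ _ _ h1.symm h2.symm (by rw [p.2, p'.2]))
      · rintro ⟨q, hq⟩
        obtain ⟨p, ⟨h1, h2⟩, -⟩ := hlift q u (by rw [hq]; exact hadj.symm)
        refine ⟨⟨p, h1⟩, Subtype.ext ?_⟩
        exact huniq p _ _ (hg ⟨p, h1⟩) h2.symm (by rw [(g ⟨p, h1⟩).2, hq])
    exact ⟨Equiv.ofBijective g hbij, fun p => hg p⟩)
  have αfix : ∀ p, α p = p ↔ m (f p) = f p := by
    intro p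
    refine ⟨fun h1 => ?_, α2 p⟩
    by_contra h2
    have := (α3 p h2).1
    rw [h1] at this
    exact this.ne rfl
  have αadj : ∀ p, α p ≠ p → P.Adj p (α p) := by
    intro p hp
    exact (α3 p (fun h => hp ((αfix p).2 h))).1
  by_cases hkev : Even k
  · -- even number of sheets: pairs inside the fibres
    obtain ⟨σ, hσ⟩ := glue_pairing f (fun p => m (f p) ≠ f p) (by
      rintro v ⟨p, rfl, hp⟩
      have : Nat.card {q // f q = f p ∧ m (f q) ≠ f q} = k := by
        rw [← hk (f p)]
        refine Nat.card_congr (Equiv.subtypeEquivRight fun q => ⟨fun h => h.1, fun h => ⟨h, ?_⟩⟩)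
        rw [h]; exact hp
      rw [this]
      exact hkev)
    let β : W → W := fun p => if m (f p) = f p then p else σ p
    have b1 : ∀ p, m (f p) = f p → β p = p := fun p h => by simp only [β, if_pos h]
    have b2 : ∀ p, m (f p) ≠ f p → β p = σ p := fun p h => by simp only [β, if_neg h]
    have bf : ∀ p, f (β p) = f p := by
      intro p
      by_cases h : m (f p) = f p
      · rw [b1 p h]
      · rw [b2 p h]; exact (hσ p h).1
    have bfix : ∀ p, β p = p ↔ m (f p) = f p := by
      intro p
      refine ⟨fun h1 => ?_, b1 p⟩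
      by_contra h2
      rw [b2 p h2] at h1
      exact (hσ p h2).2.2.2 h1
    refine core' P α β α1 ?_ ?_ αadj ?_ ?_ ?_ ?_
    · intro p
      by_cases h : m (f p) = f p
      · rw [b1 p h, b1 p h]
      · have h' : m (f (σ p)) ≠ f (σ p) := (hσ p h).2.1
        rw [b2 p h, b2 _ h']
        exact (hσ p h).2.2.1
    · intro p; rw [αfix, bfix]
    · intro p _
      exact hfib _ _ (bf p).symm
    · intro p q hp hq hpq
      exact m3 _ _ ((bfix p).1 hp) ((bfix q).1 hq) (hf _ _ hpq)
    · intro p q hp _
      exact hsame _ _ _ (bf p).symm (fun h => hp h.symm)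
    · intro p q hp _ _ _ hh
      exact hsame p (β p) q (bf p).symm (fun h => hp h.symm) ⟨hh.1, hh.2.2.1⟩
  · have hkc : c < 2 * (k * (k - 2)) := h.resolve_left hkev
    have hk1 : Even (k - 1) := by
      rcases Nat.even_or_odd k with h | h
      · exact absurd h hkev
      · obtain ⟨j, hj⟩ := h
        exact ⟨j, by omega⟩
    obtain ⟨e, he⟩ : ∃ e : V → ℕ, Function.Injective e :=
      ⟨fun v => (Fintype.equivFin V v : ℕ),
        fun a b h => (Fintype.equivFin V).injective (Fin.ext h)⟩
    let X : Finset V := univ.filter (fun v => m v ≠ v ∧ e v < e (m v))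
    have hXm : ∀ v, v ∈ X ↔ m v ≠ v ∧ e v < e (m v) := fun v => by simp [X]
    obtain ⟨y, y1, y2⟩ := select T P f k c hf huniq (by
        intro v
        have := hk v
        rwa [Nat.card_eq_fintype_card, Fintype.card_subtype] at this)
      m m1 m4 hc m2 hkc X (by
        intro v hv
        obtain ⟨h1, h2⟩ := (hXm v).1 hv
        refine ⟨h1, fun h3 => ?_⟩
        have h4 := ((hXm _).1 h3).2
        rw [m1] at h4
        omega)
    -- the exceptional vertex of a matched fibre
    let x : V → W := fun v => if e v < e (m v) then (y v).1 else (y (m v)).2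
    have hx : ∀ v, m v ≠ v → ∃ r ∈ X, (r = v ∨ r = m v) ∧
        ((x v = (y r).1 ∧ x (m v) = (y r).2) ∨ (x v = (y r).2 ∧ x (m v) = (y r).1)) := by
      intro v hv
      by_cases h1 : e v < e (m v)
      · refine ⟨v, (hXm v).2 ⟨hv, h1⟩, Or.inl rfl, Or.inl ⟨?_, ?_⟩⟩
        · simp only [x, if_pos h1]
        · have h2 : ¬ e (m v) < e (m (m v)) := by rw [m1]; omega
          simp only [x, if_neg h2, m1]
      · have hne : e v ≠ e (m v) := fun h => hv (he h).symm
        have h2 : e (m v) < e (m (m v)) := by rw [m1]; omega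
        have h3 : m (m v) ≠ m v := by rw [m1]; exact fun h => hv h.symm
        refine ⟨m v, (hXm _).2 ⟨h3, h2⟩, Or.inr rfl, Or.inr ⟨?_, ?_⟩⟩
        · simp only [x, if_neg h1]
        · simp only [x, if_pos h2]
    have hxf : ∀ v, m v ≠ v → f (x v) = v := by
      intro v hv
      by_cases h1 : e v < e (m v)
      · have := (y1 v ((hXm v).2 ⟨hv, h1⟩)).1
        simp only [x, if_pos h1]
        exact this
      · have hne : e v ≠ e (m v) := fun h => hv (he h).symm
        have h2 : e (m v) < e (m (m v)) := by rw [m1]; omega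
        have h3 : m (m v) ≠ m v := by rw [m1]; exact fun h => hv h.symm
        have := (y1 (m v) ((hXm _).2 ⟨h3, h2⟩)).2.1
        simp only [x, if_neg h1]
        rw [this, m1]
    have hmm : ∀ v, m v ≠ v → m (m v) ≠ m v := by
      intro v hv; rw [m1]; exact fun h => hv h.symm
    obtain ⟨σ, hσ⟩ := glue_pairing f (fun p => m (f p) ≠ f p ∧ p ≠ x (f p)) (by
      rintro v ⟨p, rfl, hp, -⟩
      have : Nat.card {q // f q = f p ∧ (m (f q) ≠ f q ∧ q ≠ x (f q))} = k - 1 := by
        rw [← hk (f p), Nat.card_eq_fintype_card, Nat.card_eq_fintype_card, Fintype.card_subtype,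
          Fintype.card_subtype]
        have h1 : univ.filter (fun q => f q = f p ∧ (m (f q) ≠ f q ∧ q ≠ x (f q))) =
            (univ.filter (fun q => f q = f p)).erase (x (f p)) := by
          ext q
          simp only [mem_filter, mem_univ, true_and, mem_erase]
          constructor
          · rintro ⟨h1, h2, h3⟩
            rw [h1] at h3
            exact ⟨h3, h1⟩
          · rintro ⟨h1, h2⟩
            refine ⟨h2, ?_, ?_⟩
            · rw [h2]; exact hp
            · rw [h2]; exact h1
        rw [h1, card_erase_of_mem]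
        exact mem_filter.2 ⟨mem_univ _, hxf _ hp⟩
      rw [this]
      exact hk1)
    let β : W → W := fun p => if m (f p) = f p then p else
      if p = x (f p) then x (m (f p)) else σ p
    have b1 : ∀ p, m (f p) = f p → β p = p := fun p h => by simp only [β, if_pos h]
    have b2 : ∀ p, m (f p) ≠ f p → p = x (f p) → β p = x (m (f p)) := fun p h h' => by
      simp only [β, if_neg h]
      rw [if_pos h']
    have b3 : ∀ p, m (f p) ≠ f p → p ≠ x (f p) → β p = σ p := fun p h h' => by
      simp only [β, if_neg h, if_neg h']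
    have bfix : ∀ p, β p = p ↔ m (f p) = f p := by
      intro p
      refine ⟨fun h1 => ?_, b1 p⟩
      by_contra h2
      by_cases h3 : p = x (f p)
      · rw [b2 p h2 h3] at h1
        have h4 := hxf _ (hmm _ h2)
        rw [h1] at h4
        exact h2 h4.symm
      · rw [b3 p h2 h3] at h1
        exact (hσ p ⟨h2, h3⟩).2.2.2 h1
    have bσ : ∀ p, m (f p) ≠ f p → p ≠ x (f p) → f (β p) = f p := by
      intro p h1 h2
      rw [b3 p h1 h2]
      exact (hσ p ⟨h1, h2⟩).1
    refine core' P α β α1 ?_ ?_ αadj ?_ ?_ ?_ ?_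
    · intro p
      by_cases h1 : m (f p) = f p
      · rw [b1 p h1, b1 p h1]
      · by_cases h2 : p = x (f p)
        · rw [b2 p h1 h2]
          have h3 : f (x (m (f p))) = m (f p) := hxf _ (hmm _ h1)
          have h4 : m (f (x (m (f p)))) ≠ f (x (m (f p))) := by rw [h3]; exact hmm _ h1
          rw [b2 _ h4 (by rw [h3]), h3, m1]
          exact h2.symm
        · rw [b3 p h1 h2]
          obtain ⟨c1, c2, c3, -⟩ := hσ p ⟨h1, h2⟩
          rw [b3 _ c2.1 c2.2]
          exact c3
    · intro p; rw [αfix, bfix]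
    · intro p hp
      have h1 : m (f p) ≠ f p := fun h => hp ((bfix p).2 h)
      by_cases h2 : p = x (f p)
      · rw [b2 p h1 h2]
        obtain ⟨r, hr, -, h3⟩ := hx _ h1
        have h4 := (y1 r hr).2.2.1
        intro h5
        have h5 : P.Adj (x (f p)) (x (m (f p))) := by rw [← h2]; exact h5
        rcases h3 with ⟨h6, h7⟩ | ⟨h6, h7⟩
        · rw [h6, h7] at h5; exact h4 h5
        · rw [h6, h7] at h5; exact h4 h5.symm
      · exact hfib _ _ (bσ p h1 h2).symm
    · intro p q hp hq hpq
      exact m3 _ _ ((bfix p).1 hp) ((bfix q).1 hq) (hf _ _ hpq)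
    · intro p q hp hq
      have h1 : m (f p) ≠ f p := fun h => hp ((bfix p).2 h)
      have hq' := (bfix q).1 hq
      by_cases h2 : p = x (f p)
      · rw [b2 p h1 h2]
        obtain ⟨r, hr, -, h3⟩ := hx _ h1
        have h4 := (y1 r hr).2.2.2 q hq'
        rintro ⟨h5, h5'⟩
        rw [h2] at h5
        rcases h3 with ⟨h6, h7⟩ | ⟨h6, h7⟩
        · rw [h6] at h5; rw [h7] at h5'; exact h4 ⟨h5, h5'⟩
        · rw [h6] at h5; rw [h7] at h5'; exact h4 ⟨h5', h5⟩
      · exact hsame _ _ _ (bσ p h1 h2).symm (fun h => hp h.symm)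
    · intro p q hp hq hqp hqb hh
      have h1 : m (f p) ≠ f p := fun h => hp ((bfix p).2 h)
      have h1' : m (f q) ≠ f q := fun h => hq ((bfix q).2 h)
      by_cases h2 : p = x (f p)
      · by_cases h2' : q = x (f q)
        · have hbp := b2 p h1 h2
          have hbq := b2 q h1' h2'
          obtain ⟨r, hr, hr1, hr2⟩ := hx _ h1
          obtain ⟨s, hs, hs1, hs2⟩ := hx _ h1'
          have hrs : r ≠ s := by
            rintro rfl
            have e1 : f p = f q ∨ f q = m (f p) := by
              rcases hr1 with h3 | h3 <;> rcases hs1 with h4 | h4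
              · exact Or.inl (h3.symm.trans h4)
              · right
                rw [← h3, h4, m1]
              · right
                rw [← h3, h4]
              · left
                rw [← m1 (f p), ← h3, h4, m1]
            rcases e1 with h3 | h3
            · apply hqp
              rw [h2', h2, h3]
            · apply hqb
              rw [hbp, ← h3]
              exact h2'
          refine y2 r hr s hs hrs ?_
          obtain ⟨a1, a2, a3, a4⟩ := hh
          rw [hbp] at a3 a4
          rw [hbq] at a2 a4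
          have e2 : p = x (f p) := h2
          have e3 : q = x (f q) := h2'
          have a1' : P.Adj (x (f p)) (x (f q)) := by rw [← e2, ← e3]; exact a1
          have a2' : P.Adj (x (f p)) (x (m (f q))) := by rw [← e2]; exact a2
          have a3' : P.Adj (x (m (f p))) (x (f q)) := by rw [← e3]; exact a3
          rcases hr2 with ⟨h5, h6⟩ | ⟨h5, h6⟩ <;> rcases hs2 with ⟨h7, h8⟩ | ⟨h7, h8⟩ <;>
            rw [h5, h7] at a1' <;> rw [h5, h8] at a2' <;> rw [h6, h7] at a3' <;>
            rw [h6, h8] at a4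
          · exact ⟨a1', a2', a3', a4⟩
          · exact ⟨a2', a1', a4, a3'⟩
          · exact ⟨a3', a4, a1', a2'⟩
          · exact ⟨a4, a3', a2', a1'⟩
        · exact hsame q (β q) p (bσ q h1' h2').symm (fun h => hq h.symm)
            ⟨hh.1.symm, hh.2.1.symm⟩
      · exact hsame p (β p) q (bσ p h1 h2).symm (fun h => hp h.symm) ⟨hh.1, hh.2.2.1⟩

end Pool.Agent.J4.H77.CV
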